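import Pool.Agent.P.MP_28bf3c_nt.Q.Ex

set_option autoImplicit false
open Finset

namespace Pool.Agent.P.MP_28bf3c_nt.Q

noncomputable section

variable {p : ℕ → ℝ}

/-- chordal distance of the character from one -/
def rho (t : ℝ) : ℝ := ‖ee t - 1‖

lemma rho_add (a b : ℝ) : rho (a + b) ≤ rho a + rho b := by
  unfold rho
  have : ee (a + b) - 1 = (ee a - 1) + ee a * (ee b - 1) := by rw [ee_add]; ring
  rw [this]
  refine (norm_add_le _ _).trans (le_of_eq ?_)
  rw [norm_mul, norm_ee, one_mul]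

lemma rho_le (t : ℝ) : rho t ≤ |t| := Real.norm_exp_I_mul_ofReal_sub_one_le

lemma ee_re (t : ℝ) : (ee t).re = Real.cos t := by
  rw [ee, mul_comm]; exact Complex.exp_ofReal_mul_I_re t

lemma ee_sq (t : ℝ) : (ee t).re ^ 2 + (ee t).im ^ 2 = 1 := by
  have := Complex.sq_norm (ee t)
  rw [norm_ee, Complex.normSq_apply] at this
  nlinarith

lemma rho_sq (t : ℝ) : rho t ^ 2 = 2 - 2 * (ee t).re := by
  rw [rho, Complex.sq_norm, Complex.normSq_apply]
  simp only [Complex.sub_re, Complex.one_re, Complex.sub_im, Complex.one_im]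
  nlinarith [ee_sq t]

lemma rho_neg (t : ℝ) : rho (-t) = rho t := by
  have h := rho_sq t
  have h' := rho_sq (-t)
  rw [ee_re] at h h'
  rw [Real.cos_neg, ← h] at h'
  exact (pow_left_inj₀ (norm_nonneg _) (norm_nonneg _) two_ne_zero).1 h'

lemma rho_ge {t : ℝ} (ht : |t| ≤ 2) : 3 / 5 * |t| ≤ rho t := by
  have h1 := Real.cos_le_one_sub_mul_cos_sq (x := t) (ht.trans Real.two_le_pi)
  have h2 : (9 / 50 : ℝ) ≤ 2 / Real.pi ^ 2 := by
    rw [le_div_iff₀ (by positivity)]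
    nlinarith [Real.pi_lt_d2, Real.pi_pos]
  refine (pow_le_pow_iff_left₀ (by positivity) (norm_nonneg _) two_ne_zero).1 ?_
  change _ ≤ rho t ^ 2
  rw [rho_sq, ee_re, mul_pow, sq_abs]
  nlinarith [sq_nonneg t]

/-- modulus of the characteristic function of one digit -/
def mm (q θ : ℝ) : ℝ := ‖((1 - q : ℝ) : ℂ) + (q : ℂ) * ee θ‖

lemma mm_nonneg (q θ : ℝ) : 0 ≤ mm q θ := norm_nonneg _

lemma mm_le (q θ : ℝ) : mm q θ ≤ 1 - q * (1 - q) * rho θ ^ 2 / 2 := by
  have h : mm q θ ^ 2 = 1 - q * (1 - q) * rho θ ^ 2 := by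
    rw [rho_sq, mm, Complex.sq_norm, Complex.normSq_apply]
    simp only [Complex.add_re, Complex.ofReal_re, Complex.mul_re, Complex.ofReal_im,
      Complex.add_im, Complex.mul_im]
    linear_combination q ^ 2 * ee_sq θ
  nlinarith [sq_nonneg (mm q θ - 1)]

lemma mm_le_one {q : ℝ} (hq : 0 ≤ q ∧ q ≤ 1) (θ : ℝ) : mm q θ ≤ 1 := by
  have := mm_le q θ
  have h2 : 0 ≤ q * (1 - q) * rho θ ^ 2 :=
    mul_nonneg (mul_nonneg hq.1 (sub_nonneg.2 hq.2)) (sq_nonneg _)
  linarith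

/-- expectation over the difference of two independent copies -/
def DD (p : ℕ → ℝ) (S : Finset ℕ) (g : ℝ → ℝ) : ℝ :=
  Ex p S (fun c => Ex p S (fun c' => g (c - c')))

lemma DD_insert {S : Finset ℕ} {j : ℕ} (hj : j ∉ S) (g : ℝ → ℝ) :
    DD p (insert j S) g = (1 - 2 * (p j * (1 - p j))) * DD p S g
      + p j * (1 - p j) * DD p S (fun z => g (z + (1 / 2) ^ j))
      + p j * (1 - p j) * DD p S (fun z => g (z - (1 / 2) ^ j)) := by
  unfold DD
  simp only [Ex_insert hj, Ex_add, Ex_smul]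
  have e1 : ∀ c c' : ℝ, c - (c' + (1 / 2) ^ j) = c - c' - (1 / 2) ^ j := fun _ _ => by ring
  have e2 : ∀ c c' : ℝ, c + (1 / 2) ^ j - c' = c - c' + (1 / 2) ^ j := fun _ _ => by ring
  simp only [add_sub_add_right_eq_sub]
  simp only [e1, e2, smul_eq_mul]
  ring

lemma DD_le_mul (hp : ∀ n, 0 ≤ p n ∧ p n ≤ 1) {S : Finset ℕ} {g h : ℝ → ℝ} {M : ℝ}
    (H : ∀ u ⊆ S, ∀ u' ⊆ S, g (xv u - xv u') ≤ M * h (xv u - xv u')) :
    DD p S g ≤ M * DD p S h := by
  unfold DD
  rw [← smul_eq_mul, ← Ex_smul]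
  refine Ex_mono hp fun u hu => ?_
  rw [← Ex_smul]
  exact Ex_mono hp fun u' hu' => H u hu u' hu'

lemma DD_prod_le (hp : ∀ n, 0 ≤ p n ∧ p n ≤ 1) {q : ℕ → ℝ} (hq : ∀ n, 0 ≤ q n ∧ q n ≤ 1)
    {τ : ℝ} (h1 : 1 / 2 ≤ |τ|) (h2 : |τ| ≤ 2) (I : Finset ℕ)
    (hI : ∀ i ∈ I, ∀ i' ∈ I, i < i' → i + 4 ≤ i') (δ : ℝ) :
    DD p I (fun z => ∏ i ∈ I, mm (q i) (τ * 2 ^ i * (δ + z)))
      ≤ ∏ i ∈ I, (1 - (p i * (1 - p i)) * (q i * (1 - q i)) / 300) := by
  induction I using Finset.induction_on_min generalizing δ with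
  | empty => simp [DD]
  | insert j S hlt ih =>
    have hj : j ∉ S := fun h => lt_irrefl _ (hlt j h)
    have ih' := ih fun i hi i' hi' => hI i (mem_insert_of_mem hi) i' (mem_insert_of_mem hi')
    have hv : ∀ x : ℝ, 0 ≤ x ∧ x ≤ 1 → 0 ≤ x * (1 - x) ∧ x * (1 - x) ≤ 1 / 4 := fun x hx =>
      ⟨mul_nonneg hx.1 (sub_nonneg.2 hx.2), by nlinarith [sq_nonneg (x - 1 / 2)]⟩
    set Pr := ∏ i ∈ S, (1 - (p i * (1 - p i)) * (q i * (1 - q i)) / 300) with hPr
    have hPr0 : 0 ≤ Pr := prod_nonneg fun i _ => by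
      have a := hv _ (hp i)
      have b := hv _ (hq i)
      nlinarith
    set F : ℝ → ℝ := fun δ => DD p S
      (fun z => ∏ i ∈ insert j S, mm (q i) (τ * 2 ^ i * (δ + z))) with hF
    have key : ∀ δ M : ℝ, 0 ≤ M → (∀ η, |η| ≤ |τ| / 8 → mm (q j) (τ * 2 ^ j * δ + η) ≤ M) →
        F δ ≤ M * Pr := by
      intro δ M hM H
      refine le_trans (DD_le_mul hp (M := M)
        (h := fun z => ∏ i ∈ S, mm (q i) (τ * 2 ^ i * (δ + z))) fun u hu u' hu' => ?_)
        (mul_le_mul_of_nonneg_left (ih' δ) hM)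
      rw [prod_insert hj]
      refine mul_le_mul_of_nonneg_right ?_ (prod_nonneg fun _ _ => mm_nonneg _ _)
      rw [mul_add]
      apply H
      have b : ∀ u ⊆ S, xv u ≤ 2 * (1 / 2) ^ (j + 4) := fun u hu => xv_le fun i hi =>
        hI j (mem_insert_self _ _) i (mem_insert_of_mem (hu hi)) (hlt i (hu hi))
      have c : |xv u - xv u'| ≤ 2 * (1 / 2) ^ (j + 4) := by
        rw [abs_le]
        constructor <;> linarith [b u hu, b u' hu', xv_nonneg u, xv_nonneg u']
      rw [abs_mul, abs_mul, abs_of_pos (by positivity : (0 : ℝ) < 2 ^ j)]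
      calc _ ≤ |τ| * 2 ^ j * (2 * (1 / 2) ^ (j + 4)) := by gcongr
        _ = |τ| / 8 := by rw [pow_add, one_div, inv_pow]; field_simp; norm_num
    have k1 : ∀ δ, F δ ≤ Pr := fun δ => by
      simpa using key δ 1 zero_le_one fun η _ => mm_le_one (hq j) _
    have a := hv _ (hp j)
    have b := hv _ (hq j)
    have k2 : ∀ δ, 3 / 10 * |τ| ≤ rho (τ * 2 ^ j * δ) → F δ ≤ (1 - q j * (1 - q j) / 300) * Pr := by
      intro δ hδ
      refine key δ _ (by linarith) fun η hη => (mm_le _ _).trans ?_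
      have c := rho_add (τ * 2 ^ j * δ + η) (-η)
      rw [add_neg_cancel_right, rho_neg] at c
      have d := rho_le η
      have e : 7 / 80 ≤ rho (τ * 2 ^ j * δ + η) := by linarith
      have f : 1 / 150 ≤ rho (τ * 2 ^ j * δ + η) ^ 2 := by nlinarith
      nlinarith
    rw [DD_insert hj, prod_insert hj (f := fun i => 1 - (p i * (1 - p i)) * (q i * (1 - q i)) / 300),
      ← hPr]
    have e1 : ∀ z : ℝ, δ + (z + (1 / 2) ^ j) = δ + (1 / 2) ^ j + z := fun _ => by ring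
    have e2 : ∀ z : ℝ, δ + (z - (1 / 2) ^ j) = δ - (1 / 2) ^ j + z := fun _ => by ring
    simp only [e1, e2]
    change _ * F δ + _ * F (δ + (1 / 2) ^ j) + _ * F (δ - (1 / 2) ^ j) ≤ _
    have e3 : τ * 2 ^ j * (δ + (1 / 2) ^ j) = τ * 2 ^ j * δ + τ := by
      rw [one_div, inv_pow]; field_simp
    have t1 := rho_add (τ * 2 ^ j * δ + τ) (-(τ * 2 ^ j * δ))
    rw [add_neg_cancel_comm, rho_neg] at t1
    have t2 := rho_ge h2
    have g0 := k1 δ
    have g1 := k1 (δ + (1 / 2) ^ j)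
    have g2 := k1 (δ - (1 / 2) ^ j)
    have w := mul_nonneg b.1 hPr0
    by_cases hc : 3 / 10 * |τ| ≤ rho (τ * 2 ^ j * δ)
    · have g := k2 δ hc
      have x1 := mul_le_mul_of_nonneg_left g (by linarith : 0 ≤ 1 - 2 * (p j * (1 - p j)))
      have x2 := mul_le_mul_of_nonneg_left g1 a.1
      have x3 := mul_le_mul_of_nonneg_left g2 a.1
      have x4 := mul_nonneg w (by linarith : 0 ≤ 1 - 3 * (p j * (1 - p j)))
      nlinarith
    · have g := k2 (δ + (1 / 2) ^ j) (by rw [e3]; linarith)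
      have x1 := mul_le_mul_of_nonneg_left g0 (by linarith : 0 ≤ 1 - 2 * (p j * (1 - p j)))
      have x2 := mul_le_mul_of_nonneg_left g a.1
      have x3 := mul_le_mul_of_nonneg_left g2 a.1
      nlinarith

/-- Cauchy-Schwarz step -/
lemma norm_sq_le (hp : ∀ n, 0 ≤ p n ∧ p n ≤ 1) (I J : Finset ℕ) (α β a : ℝ) :
    ‖Ex p J (fun b => Ex p I (fun c => ee (α * (a + (b + c)) ^ 2 + β * (a + (b + c)))))‖ ^ 2
      ≤ DD p I (fun z => ∏ j ∈ J, mm (p j) (2 * α * z * (1 / 2) ^ j)) := by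
  set γ : ℝ → ℝ := fun c => α * c ^ 2 + (2 * α * a + β) * c with hγ
  set H : ℝ → ℂ := fun b => Ex p I (fun c => ee (γ c + 2 * α * c * b)) with hH
  have h1 : ∀ b, ‖Ex p I (fun c => ee (α * (a + (b + c)) ^ 2 + β * (a + (b + c))))‖ = ‖H b‖ := by
    intro b
    have : (fun c => ee (α * (a + (b + c)) ^ 2 + β * (a + (b + c))))
        = fun c => ee (α * (a + b) ^ 2 + β * (a + b)) * ee (γ c + 2 * α * c * b) := by
      ext c; rw [← ee_add, hγ]; congr 1; ring
    rw [this, Ex_mul, norm_mul, norm_ee, one_mul]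
  have h2 : ∀ b, ((‖H b‖ ^ 2 : ℝ) : ℂ) = Ex p I (fun c => Ex p I (fun c' =>
      ee (γ c - γ c') * ee (2 * α * (c - c') * b))) := by
    intro b
    rw [← Complex.normSq_eq_norm_sq, Complex.normSq_eq_conj_mul_self, ← Ex_mul]
    congr 1
    ext c
    rw [mul_comm, hH, Ex_conj, ← Ex_mul]
    congr 1
    ext c'
    rw [conj_ee, ← ee_add, ← ee_add]
    congr 1
    ring
  have h3 : ((Ex p J (fun b => ‖H b‖ ^ 2) : ℝ) : ℂ) = Ex p I (fun c => Ex p I (fun c' =>
      ee (γ c - γ c') * ∏ j ∈ J, ((1 - p j : ℝ) + (p j : ℂ) * ee (2 * α * (c - c') * (1 / 2) ^ j)))) := by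
    rw [Ex_ofReal]
    simp only [h2]
    rw [Ex_comm]
    congr 1
    ext c
    rw [Ex_comm]
    congr 1
    ext c'
    rw [Ex_mul, Ex_ee]
  calc _ ≤ Ex p J (fun b => ‖H b‖) ^ 2 := by
        refine pow_le_pow_left₀ (norm_nonneg _) ((norm_Ex_le hp _ _).trans (le_of_eq ?_)) 2
        simp only [h1]
    _ ≤ Ex p J (fun b => ‖H b‖ ^ 2) := Ex_sq_le hp _ _
    _ ≤ ‖((Ex p J (fun b => ‖H b‖ ^ 2) : ℝ) : ℂ)‖ := by
        rw [Complex.norm_real]; exact le_abs_self _
    _ ≤ _ := by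
        rw [h3]
        refine (norm_Ex_le hp _ _).trans (Ex_mono hp fun u _ => ?_)
        refine (norm_Ex_le hp _ _).trans (le_of_eq ?_)
        congr 1
        ext c'
        rw [norm_mul, norm_ee, one_mul, norm_prod]
        rfl

/-- decay of the quadratic phase over finitely many digits -/
lemma decay_fin (hp : ∀ n, 0 ≤ p n ∧ p n ≤ 1) {α : ℝ} (β : ℝ) {s : ℕ}
    (h1 : 1 / 2 ≤ |2 * α / 2 ^ s|) (h2 : |2 * α / 2 ^ s| ≤ 2) {S : Finset ℕ} (hS : Icc 1 s ⊆ S) :
    ‖Ex p S (fun y => ee (α * y ^ 2 + β * y))‖ ≤ Real.exp (-(1 / 2400) *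
      ∑ i ∈ (Icc 1 s).filter (fun i => 2 * i < s), (p i * (1 - p i)) * (p (s - i) * (1 - p (s - i)))) := by
  set A := (Icc 1 s).filter (fun i => 2 * i < s) with hA
  set f : ℕ → ℝ := fun i => (p i * (1 - p i)) * (p (s - i) * (1 - p (s - i))) with hf
  obtain ⟨r, -, hr⟩ : ∃ r ∈ range 4, (∑ i ∈ A, f i) / 4 ≤ ∑ i ∈ A.filter (fun i => i % 4 = r), f i := by
    apply exists_le_of_sum_le (by simp)
    rw [sum_fiberwise_of_maps_to (fun i _ => mem_range.2 (Nat.mod_lt _ (by norm_num)))]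
    simp only [sum_const, card_range, nsmul_eq_mul]
    push_cast
    linarith
  set I := A.filter (fun i => i % 4 = r) with hI
  have hIm : ∀ i ∈ I, 1 ≤ i ∧ 2 * i < s ∧ i % 4 = r := fun i hi => by
    simp only [hI, hA, mem_filter, mem_Icc] at hi
    omega
  set J := I.image (fun i => s - i) with hJ
  have hJI : Disjoint J I := by
    rw [disjoint_left]
    intro j hj hj'
    obtain ⟨i, hi, rfl⟩ := mem_image.1 hj
    have := hIm i hi
    have := hIm _ hj'
    omega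
  have hsub : J ∪ I ⊆ S := by
    refine (union_subset ?_ ?_).trans hS
    · intro j hj
      obtain ⟨i, hi, rfl⟩ := mem_image.1 hj
      have := hIm i hi
      rw [mem_Icc]; omega
    · intro i hi
      have := hIm i hi
      rw [mem_Icc]; omega
  have hb : ∀ a : ℝ, ‖Ex p (J ∪ I) (fun y => ee (α * (a + y) ^ 2 + β * (a + y)))‖
      ≤ Real.exp (-(1 / 2400) * ∑ i ∈ A, f i) := by
    intro a
    rw [Ex_union hJI]
    refine (pow_le_pow_iff_left₀ (norm_nonneg _) (Real.exp_pos _).le two_ne_zero).1 ?_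
    refine (norm_sq_le hp I J α β a).trans ?_
    have e : (fun z => ∏ j ∈ J, mm (p j) (2 * α * z * (1 / 2) ^ j))
        = fun z => ∏ i ∈ I, mm (p (s - i)) (2 * α / 2 ^ s * 2 ^ i * (0 + z)) := by
      ext z
      rw [hJ, prod_image]
      · refine prod_congr rfl fun i hi => ?_
        congr 1
        have := hIm i hi
        obtain ⟨k, hk⟩ : ∃ k, s = k + i := ⟨s - i, by omega⟩
        rw [hk, Nat.add_sub_cancel, pow_add, one_div, inv_pow]
        field_simp
        ring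
      · intro i hi i' hi' h
        have := hIm i hi
        have := hIm i' hi'
        simp only at h
        omega
    rw [e]
    refine (DD_prod_le hp (q := fun i => p (s - i)) (fun i => hp _) h1 h2 I ?_ 0).trans ?_
    · intro i hi i' hi' h
      have := hIm i hi
      have := hIm i' hi'
      omega
    · calc _ ≤ ∏ i ∈ I, Real.exp (-(f i / 300)) := by
            refine prod_le_prod (fun i _ => ?_) fun i _ => Real.one_sub_le_exp_neg _
            have a := hp i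
            have b := hp (s - i)
            have a' : p i * (1 - p i) ≤ 1 := by nlinarith
            have b' : p (s - i) * (1 - p (s - i)) ≤ 1 := by nlinarith
            have b'' : 0 ≤ p (s - i) * (1 - p (s - i)) := by nlinarith
            nlinarith
        _ = Real.exp (-(∑ i ∈ I, f i) / 300) := by
            rw [← Real.exp_sum, sum_neg_distrib, ← sum_div, neg_div]
        _ ≤ _ := by
            rw [← Real.exp_nat_mul]
            apply Real.exp_le_exp.2
            push_cast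
            linarith
  rw [← sdiff_union_of_subset hsub, Ex_union sdiff_disjoint]
  refine (norm_Ex_le hp _ _).trans ?_
  rw [← Ex_const (p := p) (S \ (J ∪ I)) (Real.exp _)]
  exact Ex_mono hp fun u _ => hb _

end

end Pool.Agent.P.MP_28bf3c_nt.Q
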