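import Mathlib

set_option autoImplicit false
open Finset MeasureTheory Filter Topology

namespace Pool.Agent.P.MP_28bf3c_nt.Q

lemma tendsto_of_summable_sq {T : ℕ → ℝ} (h0 : ∀ N, 0 ≤ T N) (h1 : ∀ N, T N ≤ T (N + 1) + 1)
    (hs : Summable fun N : ℕ => T N ^ 2 / (N : ℝ) ^ 3) :
    Tendsto (fun N : ℕ => T N / N) atTop (𝓝 0) := by
  have h2 : ∀ N j : ℕ, T N ≤ T (j + N) + j := by
    intro N j
    induction j with
    | zero => simp
    | succ j ih =>
      have := h1 (j + N)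
      rw [show j + 1 + N = j + N + 1 by ring]
      push_cast
      linarith
  have key : ∀ ε : ℝ, 0 < ε → ε ≤ 1 → ∀ᶠ N : ℕ in atTop, T N / N < ε := by
    intro ε hε hε1
    have h3 := (tendsto_sum_nat_add fun N : ℕ => T N ^ 2 / (N : ℝ) ^ 3).eventually
      (gt_mem_nhds (show (0 : ℝ) < ε ^ 3 / 64 by positivity))
    filter_upwards [h3, eventually_gt_atTop 0] with N hN hN0
    by_contra hc
    have hN' : (0 : ℝ) < N := by exact_mod_cast hN0
    rw [not_lt, le_div_iff₀ hN'] at hc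
    set k := ⌊ε * N / 2⌋₊ + 1 with hk
    have hk1 : ε * N / 2 ≤ k := by
      rw [hk]; push_cast; exact (Nat.lt_floor_add_one _).le
    have h4 : ∑ j ∈ range k, T (j + N) ^ 2 / ((j + N : ℕ) : ℝ) ^ 3
        ≤ ∑' j, T (j + N) ^ 2 / ((j + N : ℕ) : ℝ) ^ 3 :=
      ((summable_nat_add_iff (f := fun N : ℕ => T N ^ 2 / (N : ℝ) ^ 3) N).2 hs).sum_le_tsum _
        fun j _ => by positivity
    have h5 : ∑ _j ∈ range k, (ε * N / 2) ^ 2 / (2 * N : ℝ) ^ 3
        ≤ ∑ j ∈ range k, T (j + N) ^ 2 / ((j + N : ℕ) : ℝ) ^ 3 := by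
      refine sum_le_sum fun j hj => ?_
      have hj1 : (j : ℝ) ≤ ε * N / 2 := by
        have : j ≤ ⌊ε * N / 2⌋₊ := Nat.lt_succ_iff.1 (mem_range.1 hj)
        exact (Nat.cast_le.2 this).trans (Nat.floor_le (by positivity))
      have a := h2 N j
      have b : ε * N / 2 ≤ T (j + N) := by linarith
      have c : ((j + N : ℕ) : ℝ) ≤ 2 * N := by push_cast; nlinarith
      have d : (0 : ℝ) < ((j + N : ℕ) : ℝ) := by push_cast; positivity
      gcongr
    rw [sum_const, card_range, nsmul_eq_mul] at h5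
    have h6 : ε ^ 3 / 64 ≤ k * ((ε * N / 2) ^ 2 / (2 * N : ℝ) ^ 3) := by
      calc ε ^ 3 / 64 = ε * N / 2 * ((ε * N / 2) ^ 2 / (2 * N : ℝ) ^ 3) := by
            field_simp; norm_num
        _ ≤ _ := by gcongr
    linarith
  rw [tendsto_order]
  refine ⟨fun a ha => Eventually.of_forall fun N => ha.trans_le (div_nonneg (h0 N) N.cast_nonneg),
    fun a ha => ?_⟩
  filter_upwards [key (min a 1) (lt_min ha one_pos) (min_le_right _ _)] with N hN
  exact hN.trans_le (min_le_left _ _)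

lemma summable_of_rec {e a : ℕ → ℝ} (he : ∀ N, 0 ≤ e N) (ha : ∀ N, 0 ≤ a N)
    (h : ∀ N, e (N + 1) ≤ e N + 1 + 2 * N * a N) (hs : Summable fun n : ℕ => a n / n) :
    Summable fun N : ℕ => e N / (N : ℝ) ^ 3 := by
  have hs2 : Summable fun n : ℕ => 1 / (n : ℝ) ^ 2 + 2 * (a n / n) :=
    (Real.summable_one_div_nat_pow.2 (by norm_num)).add (hs.mul_left 2)
  have key : ∀ L : ℕ, ∑ N ∈ range (L + 2), e N / (N : ℝ) ^ 3 + e (L + 1) / ((L : ℝ) + 1) ^ 2
      ≤ 2 * e 1 + ∑ n ∈ range (L + 1), (1 / (n : ℝ) ^ 2 + 2 * (a n / n)) := by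
    intro L
    induction L with
    | zero => simp [sum_range_succ]; linarith
    | succ L ih =>
      rw [sum_range_succ (fun n : ℕ => 1 / (n : ℝ) ^ 2 + 2 * (a n / n)) (L + 1),
        show L + 1 + 1 = L + 2 from rfl, sum_range_succ _ (L + 2)]
      have h1 := h (L + 1)
      have hL : (0 : ℝ) < (L : ℝ) + 1 := by positivity
      have h2 : e (L + 2) / ((L : ℝ) + 2) ^ 3 + e (L + 2) / ((L : ℝ) + 2) ^ 2
          ≤ e (L + 2) / ((L : ℝ) + 1) ^ 2 := by
        have : 1 / ((L : ℝ) + 2) ^ 3 + 1 / ((L : ℝ) + 2) ^ 2 ≤ 1 / ((L : ℝ) + 1) ^ 2 := by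
          rw [div_add_div _ _ (by positivity) (by positivity), div_le_div_iff₀ (by positivity)
            (by positivity)]
          have hL0 : (0 : ℝ) ≤ L := L.cast_nonneg
          have : ((L : ℝ) + 2) ^ 3 * (L + 2) ^ 2 - ((L + 2) ^ 2 + (L + 2) ^ 3) * (L + 1) ^ 2
            = (L + 2) ^ 2 * (L ^ 2 + 5 * L + 5) := by ring
          nlinarith [mul_nonneg (sq_nonneg ((L : ℝ) + 2)) (by positivity : (0 : ℝ) ≤ L ^ 2 + 5 * L + 5)]
        have := mul_le_mul_of_nonneg_left this (he (L + 2))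
        rwa [mul_add, mul_one_div, mul_one_div, mul_one_div] at this
      have h3 : e (L + 2) / ((L : ℝ) + 1) ^ 2 ≤ e (L + 1) / ((L : ℝ) + 1) ^ 2
          + (1 / ((L : ℝ) + 1) ^ 2 + 2 * (a (L + 1) / ((L : ℝ) + 1))) := by
        calc _ ≤ (e (L + 1) + 1 + 2 * ((L : ℝ) + 1) * a (L + 1)) / ((L : ℝ) + 1) ^ 2 := by
              gcongr; exact_mod_cast h1
          _ = _ := by field_simp; ring
      push_cast
      rw [show (L : ℝ) + 1 + 1 = L + 2 by ring]
      linarith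
  refine summable_of_sum_range_le (c := 2 * e 1 + ∑' n : ℕ, (1 / (n : ℝ) ^ 2 + 2 * (a n / n)))
    (fun N => div_nonneg (he N) (by positivity)) fun L => ?_
  have h1 := key L
  have h2 := hs2.sum_le_tsum (range (L + 1)) fun n _ => by have := ha n; positivity
  have h3 : ∑ N ∈ range L, e N / (N : ℝ) ^ 3 ≤ ∑ N ∈ range (L + 2), e N / (N : ℝ) ^ 3 :=
    sum_le_sum_of_subset_of_nonneg (range_subset_range.2 (by omega))
      fun N _ _ => div_nonneg (he N) (by positivity)
  have h4 : 0 ≤ e (L + 1) / ((L : ℝ) + 1) ^ 2 := div_nonneg (he _) (by positivity)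
  linarith

variable {Ω : Type} [MeasurableSpace Ω] {μ : Measure Ω}

lemma ae_summable {g : ℕ → Ω → ℝ} (h0 : ∀ N ω, 0 ≤ g N ω) (hi : ∀ N, Integrable (g N) μ)
    (hs : Summable fun N => ∫ ω, g N ω ∂μ) : ∀ᵐ ω ∂μ, Summable fun N => g N ω := by
  have hm : ∀ N, AEMeasurable (fun ω => ENNReal.ofReal (g N ω)) μ := fun N =>
    (hi N).aemeasurable.ennreal_ofReal
  have h1 : ∫⁻ ω, ∑' N, ENNReal.ofReal (g N ω) ∂μ ≠ ⊤ := by
    rw [lintegral_tsum hm]
    simp only [← ofReal_integral_eq_lintegral_ofReal (hi _) (ae_of_all _ (h0 _))]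
    rw [← ENNReal.ofReal_tsum_of_nonneg (fun N => integral_nonneg (h0 N)) hs]
    exact ENNReal.ofReal_ne_top
  filter_upwards [ae_lt_top' (AEMeasurable.tsum hm) h1] with ω hω
  simpa [ENNReal.toReal_ofReal (h0 _ _)] using ENNReal.summable_toReal hω.ne

/-- the Davenport-Erdos-LeVeque argument -/
lemma del [IsProbabilityMeasure μ] {f : ℕ → Ω → ℂ} (hm : ∀ n, Measurable (f n))
    (hb : ∀ n ω, ‖f n ω‖ ≤ 1) {a : ℕ → ℝ} (ha : ∀ n, 0 ≤ a n)
    (h : ∀ m n, m < n → ‖∫ ω, f n ω * (starRingEnd ℂ) (f m ω) ∂μ‖ ≤ a n)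
    (hs : Summable fun n : ℕ => a n / n) :
    ∀ᵐ ω ∂μ, Tendsto (fun N : ℕ => (∑ n ∈ range N, f n ω) / N) atTop (𝓝 0) := by
  have hS : ∀ N ω, ‖∑ n ∈ range N, f n ω‖ ≤ N := fun N ω =>
    (norm_sum_le _ _).trans (by simpa using sum_le_card_nsmul (range N) _ 1 fun n _ => hb n ω)
  have hi : ∀ N, Integrable (fun ω => ‖∑ n ∈ range N, f n ω‖ ^ 2) μ := fun N =>
    Integrable.of_bound (Measurable.aestronglyMeasurable (by fun_prop)) (N ^ 2)
      (ae_of_all _ fun ω => by
        rw [norm_pow, norm_norm]; exact pow_le_pow_left₀ (norm_nonneg _) (hS N ω) 2)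
  have hi2 : ∀ m n, Integrable (fun ω => f n ω * (starRingEnd ℂ) (f m ω)) μ := fun m n =>
    Integrable.of_bound (Measurable.aestronglyMeasurable
      ((hm n).mul (Complex.continuous_conj.measurable.comp (hm m)))) 1
      (ae_of_all _ fun ω => by
        rw [norm_mul, Complex.norm_conj]; exact mul_le_one₀ (hb _ _) (norm_nonneg _) (hb _ _))
  have hrec : ∀ N, ∫ ω, ‖∑ n ∈ range (N + 1), f n ω‖ ^ 2 ∂μ
      ≤ ∫ ω, ‖∑ n ∈ range N, f n ω‖ ^ 2 ∂μ + 1 + 2 * N * a N := by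
    intro N
    have hi3 : Integrable (fun ω => ∑ m ∈ range N, (f N ω * (starRingEnd ℂ) (f m ω)).re) μ :=
      integrable_finsetSum _ fun m _ => (hi2 m N).re
    have h1 : ∫ ω, ‖∑ n ∈ range (N + 1), f n ω‖ ^ 2 ∂μ ≤ ∫ ω, (‖∑ n ∈ range N, f n ω‖ ^ 2 + 1
        + 2 * ∑ m ∈ range N, (f N ω * (starRingEnd ℂ) (f m ω)).re) ∂μ := by
      refine integral_mono (hi _) (((hi N).add (integrable_const 1)).add (hi3.const_mul 2))
        fun ω => ?_
      have e := Complex.normSq_add (f N ω) (∑ n ∈ range N, f n ω)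
      simp only [Complex.normSq_eq_norm_sq] at e
      have b : ‖f N ω‖ ^ 2 ≤ 1 := pow_le_one₀ (norm_nonneg _) (hb _ _)
      simp only
      rw [sum_range_succ, add_comm _ (f N ω), e, map_sum, mul_sum, Complex.re_sum]
      linarith
    have hi4 : Integrable (fun ω => ‖∑ n ∈ range N, f n ω‖ ^ 2 + 1) μ :=
      (hi N).add (integrable_const 1)
    have hi5 : ∀ m, Integrable (fun ω => (f N ω * (starRingEnd ℂ) (f m ω)).re) μ :=
      fun m => (hi2 m N).re
    rw [integral_add hi4 (hi3.const_mul 2),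
      integral_add (hi N) (integrable_const 1), integral_const_mul,
      integral_finsetSum _ fun m _ => hi5 m] at h1
    have h2 : ∑ m ∈ range N, ∫ ω, (f N ω * (starRingEnd ℂ) (f m ω)).re ∂μ ≤ N * a N := by
      have := sum_le_card_nsmul (range N)
        (fun m => ∫ ω, (f N ω * (starRingEnd ℂ) (f m ω)).re ∂μ) (a N) fun m hm' => by
          have e := integral_re (hi2 m N)
          simp only [RCLike.re_to_complex] at e
          rw [e]
          exact (Complex.re_le_norm _).trans (h m N (mem_range.1 hm'))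
      simpa using this
    simp only [integral_const, probReal_univ, smul_eq_mul, mul_one] at h1
    linarith
  have hsum := summable_of_rec (e := fun N => ∫ ω, ‖∑ n ∈ range N, f n ω‖ ^ 2 ∂μ)
    (fun N => integral_nonneg fun ω => by positivity) ha hrec hs
  have := ae_summable (μ := μ) (g := fun N ω => ‖∑ n ∈ range N, f n ω‖ ^ 2 / (N : ℝ) ^ 3)
    (fun N ω => by positivity) (fun N => (hi N).div_const _) (by simpa only [integral_div] using hsum)
  filter_upwards [this] with ω hω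
  rw [tendsto_zero_iff_norm_tendsto_zero]
  simp only [norm_div, Complex.norm_natCast]
  refine tendsto_of_summable_sq (fun N => norm_nonneg _) (fun N => ?_) hω
  have := norm_sub_le (∑ n ∈ range (N + 1), f n ω) (f N ω)
  rw [sum_range_succ, add_sub_cancel_right] at this
  rw [sum_range_succ]
  linarith [hb N ω]

end Pool.Agent.P.MP_28bf3c_nt.Q
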