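import Mathlib

set_option autoImplicit false
open Finset

namespace Pool.Agent.P.MP_28bf3c_nt.Q

noncomputable section

/-- the probability that the digits in S equal one exactly on u -/
def wt (p : ℕ → ℝ) (S u : Finset ℕ) : ℝ := (∏ j ∈ u, p j) * ∏ j ∈ S \ u, (1 - p j)

/-- the number with binary digits one exactly on u -/
def xv (u : Finset ℕ) : ℝ := ∑ j ∈ u, (1 / 2 : ℝ) ^ j

variable {E : Type} [NormedAddCommGroup E] [NormedSpace ℝ E]

/-- expectation of g over the digits in S -/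
def Ex (p : ℕ → ℝ) (S : Finset ℕ) (g : ℝ → E) : E := ∑ u ∈ S.powerset, wt p S u • g (xv u)

variable {p : ℕ → ℝ}

lemma wt_nonneg (hp : ∀ n, 0 ≤ p n ∧ p n ≤ 1) (S u : Finset ℕ) : 0 ≤ wt p S u :=
  mul_nonneg (prod_nonneg fun j _ => (hp j).1) (prod_nonneg fun j _ => sub_nonneg.2 (hp j).2)

lemma xv_nonneg (u : Finset ℕ) : 0 ≤ xv u := sum_nonneg fun _ _ => by positivity

lemma xv_le {u : Finset ℕ} {m : ℕ} (h : ∀ j ∈ u, m ≤ j) : xv u ≤ 2 * (1 / 2) ^ m := by
  have h1 : u ⊆ Ico m (u.sup id + 1) := fun j hj =>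
    mem_Ico.2 ⟨h j hj, Nat.lt_succ_of_le (le_sup (f := id) hj)⟩
  calc xv u ≤ ∑ j ∈ Ico m (u.sup id + 1), (1 / 2 : ℝ) ^ j :=
        sum_le_sum_of_subset_of_nonneg h1 fun _ _ _ => by positivity
    _ ≤ (1 / 2) ^ m / (1 - 1 / 2) := geom_sum_Ico_le_of_lt_one (by norm_num) (by norm_num)
    _ = _ := by ring

@[simp] lemma Ex_empty (g : ℝ → E) : Ex p ∅ g = g 0 := by simp [Ex, wt, xv]

lemma Ex_insert {S : Finset ℕ} {j : ℕ} (hj : j ∉ S) (g : ℝ → E) :
    Ex p (insert j S) g = (1 - p j) • Ex p S g + p j • Ex p S (fun y => g (y + (1 / 2) ^ j)) := by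
  unfold Ex
  rw [sum_powerset_insert hj, smul_sum, smul_sum]
  congr 1
  · refine sum_congr rfl fun u hu => ?_
    have hu' : j ∉ u := fun h => hj (mem_powerset.1 hu h)
    rw [smul_smul]
    congr 1
    unfold wt
    rw [insert_sdiff_of_notMem _ hu', prod_insert (by simp [hj])]
    ring
  · refine sum_congr rfl fun u hu => ?_
    have hu' : j ∉ u := fun h => hj (mem_powerset.1 hu h)
    rw [smul_smul]
    have e1 : xv (insert j u) = xv u + (1 / 2) ^ j := by
      unfold xv; rw [sum_insert hu', add_comm]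
    have e2 : insert j S \ insert j u = S \ u := by
      ext x; simp only [mem_sdiff, mem_insert]; grind
    rw [e1]
    congr 1
    unfold wt
    rw [e2, prod_insert hu']
    ring

lemma Ex_add (S : Finset ℕ) (g h : ℝ → E) :
    Ex p S (fun y => g y + h y) = Ex p S g + Ex p S h := by
  simp only [Ex, smul_add, sum_add_distrib]

lemma Ex_smul (S : Finset ℕ) (c : ℝ) (g : ℝ → E) :
    Ex p S (fun y => c • g y) = c • Ex p S g := by
  simp only [Ex, smul_sum, smul_smul, mul_comm]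

lemma Ex_mul (S : Finset ℕ) (c : ℂ) (g : ℝ → ℂ) :
    Ex p S (fun y => c * g y) = c * Ex p S g := by
  simp only [Ex, mul_sum, mul_smul_comm]

lemma Ex_const (S : Finset ℕ) (c : E) : Ex p S (fun _ => c) = c := by
  induction S using Finset.induction_on with
  | empty => simp
  | insert j S hj ih => rw [Ex_insert hj, ih, ← add_smul]; simp

lemma Ex_mono (hp : ∀ n, 0 ≤ p n ∧ p n ≤ 1) {S : Finset ℕ} {g h : ℝ → ℝ}
    (H : ∀ u ⊆ S, g (xv u) ≤ h (xv u)) : Ex p S g ≤ Ex p S h :=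
  sum_le_sum fun u hu => mul_le_mul_of_nonneg_left (H u (mem_powerset.1 hu)) (wt_nonneg hp S u)

lemma norm_Ex_le (hp : ∀ n, 0 ≤ p n ∧ p n ≤ 1) (S : Finset ℕ) (g : ℝ → E) :
    ‖Ex p S g‖ ≤ Ex p S (fun y => ‖g y‖) := by
  refine (norm_sum_le _ _).trans (le_of_eq (sum_congr rfl fun u _ => ?_))
  rw [norm_smul, Real.norm_of_nonneg (wt_nonneg hp S u), smul_eq_mul]

lemma Ex_union {S T : Finset ℕ} (h : Disjoint S T) (g : ℝ → E) :
    Ex p (S ∪ T) g = Ex p S (fun a => Ex p T (fun b => g (a + b))) := by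
  induction S using Finset.induction_on generalizing g with
  | empty => simp
  | insert j S hj ih =>
    rw [disjoint_insert_left] at h
    rw [insert_union, Ex_insert (by simp [hj, h.1]), Ex_insert hj, ih h.2, ih h.2]
    congr 3
    ext a
    congr 1
    ext b
    congr 1
    ring

lemma Ex_comm (S T : Finset ℕ) (g : ℝ → ℝ → E) :
    Ex p S (fun a => Ex p T (fun b => g a b)) = Ex p T (fun b => Ex p S (fun a => g a b)) := by
  simp only [Ex, smul_sum, smul_smul]
  rw [sum_comm]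
  simp only [mul_comm]

lemma Ex_sq_le (hp : ∀ n, 0 ≤ p n ∧ p n ≤ 1) (S : Finset ℕ) (g : ℝ → ℝ) :
    Ex p S g ^ 2 ≤ Ex p S (fun y => g y ^ 2) := by
  set m := Ex p S g with hm
  have h1 : Ex p S (fun y => (2 * m) • g y + -m ^ 2) ≤ Ex p S (fun y => g y ^ 2) :=
    Ex_mono hp fun u _ => by
      simp only [smul_eq_mul]
      nlinarith [sq_nonneg (g (xv u) - m)]
  rw [Ex_add, Ex_smul, Ex_const, ← hm, smul_eq_mul] at h1
  linarith

lemma Ex_ofReal (S : Finset ℕ) (g : ℝ → ℝ) :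
    ((Ex p S g : ℝ) : ℂ) = Ex p S (fun y => (g y : ℂ)) := by
  simp [Ex]

lemma Ex_conj (S : Finset ℕ) (g : ℝ → ℂ) :
    (starRingEnd ℂ) (Ex p S g) = Ex p S (fun y => (starRingEnd ℂ) (g y)) := by
  simp [Ex]

/-- the character -/
def ee (t : ℝ) : ℂ := Complex.exp (Complex.I * t)

lemma ee_add (s t : ℝ) : ee (s + t) = ee s * ee t := by
  simp [ee, mul_add, Complex.exp_add]

lemma norm_ee (t : ℝ) : ‖ee t‖ = 1 := by
  rw [ee, mul_comm]; exact Complex.norm_exp_ofReal_mul_I t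

lemma conj_ee (t : ℝ) : (starRingEnd ℂ) (ee t) = ee (-t) := by
  simp [ee, ← Complex.exp_conj]

lemma Ex_ee (S : Finset ℕ) (θ : ℝ) :
    Ex p S (fun y => ee (θ * y)) = ∏ j ∈ S, ((1 - p j : ℝ) + (p j : ℂ) * ee (θ * (1 / 2) ^ j)) := by
  induction S using Finset.induction_on with
  | empty => simp [ee]
  | insert j S hj ih =>
    rw [Ex_insert hj, prod_insert hj]
    have : (fun y => ee (θ * (y + (1 / 2) ^ j))) = fun y => ee (θ * (1 / 2) ^ j) * ee (θ * y) := by
      ext y; rw [← ee_add]; congr 1; ring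
    rw [this, Ex_mul, ih]
    simp only [Complex.real_smul]
    ring

end

end Pool.Agent.P.MP_28bf3c_nt.Q
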