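import Pool.Agent.P.MP_28bf3c_nt.Q.Decay
import Pool.Agent.P.MP_28bf3c_nt.Digits

set_option autoImplicit false
open Finset MeasureTheory ProbabilityTheory Filter Topology

namespace Pool.Agent.P.MP_28bf3c_nt.Q

noncomputable section

/-- the law of the digits -/
abbrev mu (p : ℕ → unitInterval) : Measure (ℕ → ℝ) :=
  Measure.infinitePi fun n : ℕ => bernoulliMeasure (1 : ℝ) 0 (p n)

/-- the random number -/
abbrev XX (ω : ℕ → ℝ) : ℝ := ∑' n : ℕ, ω (n + 1) / 2 ^ (n + 1)

lemma measurable_XX : Measurable XX := Measurable.tsum fun n => by fun_prop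

lemma ae_bits (p : ℕ → unitInterval) : ∀ᵐ ω ∂mu p, ∀ n, ω n = 0 ∨ ω n = 1 := by
  rw [ae_all_iff]
  intro n
  rw [ae_iff]
  have : mu p {ω | ω n ∈ ({0, 1} : Set ℝ)ᶜ} = bernoulliMeasure (1 : ℝ) 0 (p n) ({0, 1} : Set ℝ)ᶜ :=
    (measurePreserving_eval_infinitePi _ n).measure_preimage (by measurability)
  rw [bernoulliMeasure_apply_of_notMem_of_notMem _ (by measurability) (by simp) (by simp)] at this
  simpa using this

lemma int_eq_Ex (p : ℕ → unitInterval) (S : Finset ℕ) (g : ℝ → ℂ) :
    ∫ ω, g (∑ j ∈ S, ω j * (1 / 2) ^ j) ∂mu p = Ex (fun n => (p n : ℝ)) S g := by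
  set C : Finset ℕ → Set (ℕ → ℝ) :=
    fun u => Set.pi (S : Set ℕ) (fun j => {if j ∈ u then (1 : ℝ) else 0}) with hC
  have hCm : ∀ u, MeasurableSet (C u) := fun u =>
    MeasurableSet.pi S.countable_toSet fun _ _ => measurableSet_singleton _
  have h1 : (fun ω : ℕ → ℝ => g (∑ j ∈ S, ω j * (1 / 2) ^ j))
      =ᵐ[mu p] fun ω => ∑ u ∈ S.powerset, (C u).indicator (fun _ => g (xv u)) ω := by
    filter_upwards [ae_bits p] with ω hω
    rw [sum_eq_single (S.filter fun j => ω j = 1)]
    · rw [Set.indicator_of_mem]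
      · congr 1
        rw [xv, sum_filter]
        refine sum_congr rfl fun j _ => ?_
        rcases hω j with h | h <;> simp [h]
      · intro j hj
        rcases hω j with h | h <;> simp [h, mem_coe.1 hj]
    · intro u hu hne
      rw [Set.indicator_of_notMem]
      intro h
      apply hne
      ext j
      rw [mem_filter]
      constructor
      · intro hj
        have := h j (mem_powerset.1 hu hj)
        exact ⟨mem_powerset.1 hu hj, by simpa [hj] using this⟩
      · rintro ⟨hj, h1⟩
        have := h j hj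
        by_contra hn
        simp [hn, h1] at this
    · intro h
      exact absurd (mem_powerset.2 (filter_subset _ _)) h
  rw [integral_congr_ae h1, integral_finsetSum _ fun u _ => (integrable_const _).indicator (hCm u)]
  refine sum_congr rfl fun u hu => ?_
  rw [integral_indicator_const _ (hCm u)]
  congr 1
  rw [Measure.real, hC, Measure.infinitePi_pi _ fun _ _ => measurableSet_singleton _,
    ENNReal.toReal_prod, ← prod_sdiff (mem_powerset.1 hu), wt, mul_comm]
  congr 1
  · refine prod_congr rfl fun j hj => ?_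
    rw [if_pos hj]
    exact bernoulliMeasure_real_apply_of_mem_of_notMem _ (measurableSet_singleton _) (by simp)
      (by simp)
  · refine prod_congr rfl fun j hj => ?_
    rw [if_neg (mem_sdiff.1 hj).2]
    exact bernoulliMeasure_real_apply_of_notMem_of_mem _ (measurableSet_singleton _) (by simp)
      (by simp)

lemma R_two_le (p : ℕ → unitInterval) (s : ℕ) :
    R 2 p s ≤ ∑ i ∈ (Icc 1 s).filter (fun i => 2 * i < s),
      ((p i : ℝ) * (1 - p i)) * ((p (s - i) : ℝ) * (1 - p (s - i))) := by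
  have h0 : ∀ I : Finset ℕ, 0 ≤ ∏ i ∈ I, ((p i : ℝ) * (1 - (p i : ℝ))) := fun I =>
    prod_nonneg fun i _ => mul_nonneg (p i).2.1 (sub_nonneg.2 (p i).2.2)
  have hsub : ((Icc 1 s).powersetCard 2).filter (fun I => ∑ i ∈ I, i = s)
      ⊆ ((Icc 1 s).filter (fun i => 2 * i < s)).image fun i => ({i, s - i} : Finset ℕ) := by
    intro I hI
    rw [mem_filter, mem_powersetCard] at hI
    obtain ⟨⟨h1, h2⟩, h3⟩ := hI
    obtain ⟨x, y, hxy, rfl⟩ := card_eq_two.1 h2
    rw [sum_pair hxy] at h3
    have hx := mem_Icc.1 (h1 (mem_insert_self _ _))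
    have hy := mem_Icc.1 (h1 (mem_insert_of_mem (mem_singleton_self _)))
    rw [mem_image]
    rcases lt_or_gt_of_ne hxy with h | h
    · refine ⟨x, by simp only [mem_filter, mem_Icc]; omega, ?_⟩
      rw [show s - x = y by omega]
    · refine ⟨y, by simp only [mem_filter, mem_Icc]; omega, ?_⟩
      rw [show s - y = x by omega, pair_comm]
  refine (sum_le_sum_of_subset_of_nonneg hsub fun I _ _ => h0 I).trans ?_
  refine (sum_image_le_of_nonneg fun I _ => h0 I).trans (le_of_eq (sum_congr rfl fun i hi => ?_))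
  simp only [mem_filter, mem_Icc] at hi
  rw [prod_pair (by omega)]

lemma continuous_ee : Continuous ee := by unfold ee; fun_prop

/-- Fourier decay of a quadratic phase -/
lemma decay (p : ℕ → unitInterval) {α : ℝ} (β : ℝ) {s : ℕ}
    (h1 : 1 / 2 ≤ |2 * α / 2 ^ s|) (h2 : |2 * α / 2 ^ s| ≤ 2) :
    ‖∫ ω, ee (α * XX ω ^ 2 + β * XX ω) ∂mu p‖ ≤ Real.exp (-(1 / 2400) * R 2 p s) := by
  have hc : Continuous fun y : ℝ => ee (α * y ^ 2 + β * y) := continuous_ee.comp (by fun_prop)
  have lim : Tendsto (fun M : ℕ => ∫ ω, (fun y : ℝ => ee (α * y ^ 2 + β * y))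
      (∑ j ∈ Icc 1 M, ω j * (1 / 2) ^ j) ∂mu p) atTop
      (𝓝 (∫ ω, ee (α * XX ω ^ 2 + β * XX ω) ∂mu p)) := by
    refine tendsto_integral_of_dominated_convergence (fun _ => 1) (fun M => ?_)
      (integrable_const _) (fun M => ae_of_all _ fun ω => (norm_ee _).le) ?_
    · exact (hc.measurable.comp (by fun_prop)).aestronglyMeasurable
    · filter_upwards [ae_bits p] with ω hω
      refine (hc.tendsto _).comp ?_
      refine (summable_bits hω).hasSum.tendsto_sum_nat.congr fun M => ?_
      rw [← Finset.Ico_add_one_right_eq_Icc, sum_Ico_eq_sum_range]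
      refine sum_congr (by simp) fun n _ => ?_
      rw [add_comm 1 n, one_div, inv_pow, div_eq_mul_inv]
  refine le_of_tendsto lim.norm ?_
  filter_upwards [eventually_ge_atTop s] with M hM
  rw [int_eq_Ex p (Icc 1 M) (fun y : ℝ => ee (α * y ^ 2 + β * y))]
  refine (decay_fin (fun n => (p n).2) β h1 h2 (Icc_subset_Icc_right hM)).trans ?_
  apply Real.exp_le_exp.2
  linarith [R_two_le p s]

end

end Pool.Agent.P.MP_28bf3c_nt.Q
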