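import Pool.Agent.P.MP_28bf3c_nt.Defs

set_option autoImplicit false
open Finset MeasureTheory Filter Topology AddCircle

namespace Pool.Agent.P.MP_28bf3c_nt.Q

lemma weyl_cont {x : ℕ → UnitAddCircle}
    (H : ∀ h : ℤ, h ≠ 0 → Tendsto (fun N : ℕ => (∑ n ∈ range N, fourier h (x n)) / N) atTop (𝓝 0))
    (g : C(UnitAddCircle, ℂ)) :
    Tendsto (fun N : ℕ => (∑ n ∈ range N, g (x n)) / N) atTop (𝓝 (∫ z, g z ∂haarAddCircle)) := by
  have hi : ∀ g : C(UnitAddCircle, ℂ), Integrable g haarAddCircle := fun g =>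
    g.continuous.integrable_of_hasCompactSupport (HasCompactSupport.of_compactSpace _)
  have h1 : ∀ g ∈ Submodule.span ℂ (Set.range (@fourier 1)),
      Tendsto (fun N : ℕ => (∑ n ∈ range N, g (x n)) / N) atTop (𝓝 (∫ z, g z ∂haarAddCircle)) := by
    intro g hg
    induction hg using Submodule.span_induction with
    | mem g hg =>
      obtain ⟨h, rfl⟩ := hg
      by_cases h0 : h = 0
      · subst h0
        simp only [fourier_zero, sum_const, card_range, nsmul_eq_mul, mul_one, integral_const,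
          probReal_univ, one_smul]
        refine tendsto_const_nhds.congr' ?_
        filter_upwards [eventually_gt_atTop 0] with N hN
        rw [div_self (by exact_mod_cast hN.ne')]
      · rw [integral_eq_zero_of_add_right_eq_neg (μ := haarAddCircle)
          (fourier_add_half_inv_index h0 one_pos)]
        exact H h h0
    | zero => simp
    | add g g' _ _ a b =>
      simp only [ContinuousMap.add_apply, sum_add_distrib, add_div]
      rw [integral_add (hi g) (hi g')]
      exact a.add b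
    | smul c g _ a =>
      simp only [ContinuousMap.smul_apply, smul_eq_mul, ← mul_sum, mul_div_assoc]
      rw [integral_const_mul]
      exact a.const_mul c
  have h2 : g ∈ closure (Submodule.span ℂ (Set.range (@fourier 1)) : Set C(UnitAddCircle, ℂ)) := by
    rw [← Submodule.topologicalClosure_coe, span_fourier_closure_eq_top]
    trivial
  rw [Metric.tendsto_atTop]
  intro ε hε
  obtain ⟨g', hg', hd⟩ := Metric.mem_closure_iff.1 h2 (ε / 3) (by positivity)
  obtain ⟨N0, hN0⟩ := Metric.tendsto_atTop.1 (h1 g' hg') (ε / 3) (by positivity)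
  refine ⟨N0, fun N hN => ?_⟩
  have hz : ∀ z, ‖g z - g' z‖ ≤ dist g g' := fun z => by
    rw [← dist_eq_norm]; exact ContinuousMap.dist_apply_le_dist z
  have a : dist ((∑ n ∈ range N, g (x n)) / N) ((∑ n ∈ range N, g' (x n)) / N) ≤ dist g g' := by
    rw [dist_eq_norm, ← sub_div, ← sum_sub_distrib, norm_div, Complex.norm_natCast]
    refine div_le_of_le_mul₀ N.cast_nonneg dist_nonneg ((norm_sum_le _ _).trans ?_)
    simpa [mul_comm] using sum_le_card_nsmul (range N) _ (dist g g') fun n _ => hz (x n)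
  have b : dist (∫ z, g' z ∂haarAddCircle) (∫ z, g z ∂haarAddCircle) ≤ dist g g' := by
    rw [dist_comm, dist_eq_norm, ← integral_sub (hi g) (hi g')]
    simpa using norm_integral_le_of_norm_le_const (μ := haarAddCircle) (ae_of_all _ hz)
  have c := dist_triangle4 ((∑ n ∈ range N, g (x n)) / N) ((∑ n ∈ range N, g' (x n)) / N)
    (∫ z, g' z ∂haarAddCircle) (∫ z, g z ∂haarAddCircle)
  linarith [hN0 N hN]

lemma haar_closedBall (c : UnitAddCircle) {r : ℝ} (hr : 0 ≤ r) :
    (haarAddCircle : Measure UnitAddCircle).real (Metric.closedBall c r) = min 1 (2 * r) := by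
  have := volume_closedBall (T := 1) (x := c) r
  rw [volume_eq_smul_haarAddCircle] at this
  simp only [ENNReal.ofReal_one, one_smul] at this
  rw [Measure.real, this, ENNReal.toReal_ofReal (le_min zero_le_one (by positivity))]

lemma weyl_bump {x : ℕ → UnitAddCircle}
    (H : ∀ h : ℤ, h ≠ 0 → Tendsto (fun N : ℕ => (∑ n ∈ range N, fourier h (x n)) / N) atTop (𝓝 0))
    (c : UnitAddCircle) {r s : ℝ} (hr : 0 ≤ r) (hrs : r < s) :
    ∃ (g : UnitAddCircle → ℝ) (l : ℝ), (∀ z, 0 ≤ g z ∧ g z ≤ 1) ∧ (∀ z, dist z c ≤ r → g z = 1) ∧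
      (∀ z, s ≤ dist z c → g z = 0) ∧ min 1 (2 * r) ≤ l ∧ l ≤ 2 * s ∧
      Tendsto (fun N : ℕ => (∑ n ∈ range N, g (x n)) / N) atTop (𝓝 l) := by
  set g : UnitAddCircle → ℝ := fun z => max 0 (min 1 ((s - dist z c) / (s - r))) with hg
  have hc : Continuous g := by rw [hg]; fun_prop
  have hd : 0 < s - r := sub_pos.2 hrs
  have g0 : ∀ z, 0 ≤ g z ∧ g z ≤ 1 := fun z =>
    ⟨le_max_left _ _, max_le zero_le_one (min_le_left _ _)⟩
  have g1 : ∀ z, dist z c ≤ r → g z = 1 := fun z hz => by
    simp only [hg]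
    rw [min_eq_left (by rw [le_div_iff₀ hd]; linarith), max_eq_right zero_le_one]
  have g2 : ∀ z, s ≤ dist z c → g z = 0 := fun z hz => by
    simp only [hg]
    exact max_eq_left ((min_le_right _ _).trans (div_nonpos_of_nonpos_of_nonneg (by linarith) hd.le))
  have hi : Integrable g haarAddCircle :=
    hc.integrable_of_hasCompactSupport (HasCompactSupport.of_compactSpace _)
  refine ⟨g, ∫ z, g z ∂haarAddCircle, g0, g1, g2, ?_, ?_, ?_⟩
  · rw [← haar_closedBall c hr, ← integral_indicator_one measurableSet_closedBall]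
    refine integral_mono ((integrable_const 1).indicator measurableSet_closedBall) hi fun z => ?_
    by_cases hz : z ∈ Metric.closedBall c r
    · rw [Set.indicator_of_mem hz, g1 z hz]; rfl
    · rw [Set.indicator_of_notMem hz]; exact (g0 z).1
  · refine le_trans ?_ (min_le_right 1 _)
    rw [← haar_closedBall c (hr.trans hrs.le), ← integral_indicator_one measurableSet_closedBall]
    refine integral_mono hi ((integrable_const 1).indicator measurableSet_closedBall) fun z => ?_
    by_cases hz : z ∈ Metric.closedBall c s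
    · rw [Set.indicator_of_mem hz]; exact (g0 z).2
    · rw [Set.indicator_of_notMem hz, g2 z (not_le.1 hz).le]
  · have := weyl_cont H ⟨fun z => (g z : ℂ), by fun_prop⟩
    simp only [ContinuousMap.coe_mk, integral_complex_ofReal] at this
    norm_cast at this
    exact Complex.continuous_re.tendsto _ |>.comp this

lemma weyl_arc {x : ℕ → UnitAddCircle}
    (H : ∀ h : ℤ, h ≠ 0 → Tendsto (fun N : ℕ => (∑ n ∈ range N, fourier h (x n)) / N) atTop (𝓝 0))
    (c : UnitAddCircle) {r : ℝ} (hr : 0 < r) (hr2 : 2 * r ≤ 1) (E : ℕ → Prop) [DecidablePred E]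
    (h1 : ∀ n, dist (x n) c < r → E n) (h2 : ∀ n, E n → dist (x n) c ≤ r) :
    Tendsto (fun N : ℕ => (((range N).filter E).card : ℝ) / N) atTop (𝓝 (2 * r)) := by
  rw [tendsto_order]
  constructor
  · intro a ha
    obtain ⟨r', h3, h4⟩ := exists_between (max_lt hr (by linarith : a / 2 < r))
    obtain ⟨g, l, g0, -, g2, l1, -, ht⟩ := weyl_bump H c ((le_max_left _ _).trans h3.le) h4
    have : a < l := by
      refine lt_of_lt_of_le (lt_min (by linarith) ?_) l1
      linarith [le_max_right 0 (a / 2)]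
    filter_upwards [ht.eventually (lt_mem_nhds this)] with N hN
    refine hN.trans_le (div_le_div_of_nonneg_right ?_ N.cast_nonneg)
    rw [card_filter]
    push_cast
    refine sum_le_sum fun n _ => ?_
    split_ifs with h
    · exact (g0 _).2
    · exact (g2 _ (not_lt.1 fun h' => h (h1 n h'))).le
  · intro a ha
    obtain ⟨r', h3, h4⟩ := exists_between (by linarith : r < a / 2)
    obtain ⟨g, l, g0, g1, -, -, l2, ht⟩ := weyl_bump H c hr.le h3
    filter_upwards [ht.eventually (gt_mem_nhds (by linarith : l < a))] with N hN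
    refine lt_of_le_of_lt (div_le_div_of_nonneg_right ?_ N.cast_nonneg) hN
    rw [card_filter]
    push_cast
    refine sum_le_sum fun n _ => ?_
    split_ifs with h
    · exact (g1 _ (h2 n h)).ge
    · exact (g0 _).1

lemma emod_mul_iff {F Q B W d : ℤ} (hQ : 0 < Q) (hd : 0 ≤ d ∧ d < B) :
    F % (Q * B) = W * B + d ↔ F / B % Q = W ∧ F % B = d := by
  have hB : 0 < B := by omega
  have e1 := Int.emod_add_mul_ediv F B
  have e2 := Int.emod_add_mul_ediv (F / B) Q
  have a := Int.emod_nonneg F hB.ne'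
  have b := Int.emod_lt_of_pos F hB
  have c := Int.emod_nonneg (F / B) hQ.ne'
  have d' := Int.emod_lt_of_pos (F / B) hQ
  have e : F % (Q * B) = F / B % Q * B + F % B := by
    have : F = (F / B % Q * B + F % B) + Q * B * (F / B / Q) := by linear_combination -e1 - B * e2
    conv_lhs => rw [this]
    rw [Int.add_mul_emod_self_left, Int.emod_eq_of_lt (by positivity) (by nlinarith)]
  rw [e]
  constructor
  · intro h
    have : F / B % Q = W := by
      rcases lt_trichotomy (F / B % Q) W with h' | h' | h'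
      · nlinarith
      · exact h'
      · nlinarith
    refine ⟨this, ?_⟩
    rw [this] at h
    linarith
  · rintro ⟨h, h'⟩
    rw [h, h']

lemma word_iff {B : ℕ} (hB : 0 < B) (w : ℕ → ℤ) (hw : ∀ i, 0 ≤ w i ∧ w i < B) (k : ℕ) :
    ∃ W : ℤ, 0 ≤ W ∧ W < B ^ k ∧ ∀ z : ℝ,
      (∀ i < k, ⌊z * (B : ℝ) ^ (i + 1)⌋ % (B : ℤ) = w i) ↔ ⌊z * (B : ℝ) ^ k⌋ % (B : ℤ) ^ k = W := by
  induction k with
  | zero => exact ⟨0, le_rfl, by simp, by simp⟩
  | succ k ih =>
    obtain ⟨W, h0, h1, h2⟩ := ih
    have hB' : (0 : ℤ) < B := by exact_mod_cast hB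
    refine ⟨W * B + w k, by nlinarith [hw k], by rw [pow_succ]; nlinarith [hw k], fun z => ?_⟩
    rw [pow_succ (B : ℤ), emod_mul_iff (by positivity) (hw k), ← Int.floor_div_natCast,
      show z * (B : ℝ) ^ (k + 1) / B = z * (B : ℝ) ^ k by rw [pow_succ]; field_simp, ← h2,
      Nat.forall_lt_succ_right]

/-- the Weyl criterion for normality -/
lemma normal_of_weyl {B : ℕ} (hB : 0 < B) {y : ℝ}
    (H : ∀ h : ℤ, h ≠ 0 → Tendsto (fun N : ℕ =>
      (∑ n ∈ range N, Complex.exp (Complex.I * (2 * Real.pi * h * B ^ n * y : ℝ))) / N) atTop (𝓝 0)) :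
    NormalInBase B y := by
  intro k _ w
  obtain ⟨W, h0, h1, h2⟩ := word_iff hB (fun i => if h : i < k then ((w ⟨i, h⟩).val : ℤ) else 0)
    (fun i => by
      split_ifs with h
      · exact ⟨by positivity, by exact_mod_cast (w ⟨i, h⟩).2⟩
      · exact ⟨le_rfl, by exact_mod_cast hB⟩) k
  have hB' : (1 : ℝ) ≤ B := by exact_mod_cast hB
  have hQ : (1 : ℝ) ≤ (B : ℝ) ^ k := one_le_pow₀ hB'
  have hQ0 : (0 : ℝ) < (B : ℝ) ^ k := by positivity
  have hQ' : (0 : ℤ) < (B : ℤ) ^ k := by positivity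
  have := weyl_arc (x := fun n => ((y * (B : ℝ) ^ n : ℝ) : UnitAddCircle)) (fun h hh => by
      refine (H h hh).congr fun N => ?_
      congr 1
      refine sum_congr rfl fun n _ => ?_
      rw [fourier_coe_apply]
      congr 1
      push_cast
      ring)
    ((((W : ℝ) + 1 / 2) / (B : ℝ) ^ k : ℝ) : UnitAddCircle) (r := 1 / (2 * (B : ℝ) ^ k))
    (by positivity) (by rw [mul_one_div, div_le_one (by positivity)]; linarith)
    (fun n => ⌊y * (B : ℝ) ^ n * (B : ℝ) ^ k⌋ % (B : ℤ) ^ k = W) (fun n hn => by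
      rw [dist_eq_norm, ← QuotientAddGroup.mk_sub, UnitAddCircle.norm_eq, abs_lt] at hn
      set m := round (y * (B : ℝ) ^ n - ((W : ℝ) + 1 / 2) / (B : ℝ) ^ k)
      have : ⌊y * (B : ℝ) ^ n * (B : ℝ) ^ k⌋ = W + (B : ℤ) ^ k * m := by
        rw [Int.floor_eq_iff]
        have a := mul_lt_mul_of_pos_right hn.1 hQ0
        have b := mul_lt_mul_of_pos_right hn.2 hQ0
        have c : 1 / (2 * (B : ℝ) ^ k) * (B : ℝ) ^ k = 1 / 2 := by field_simp
        have d : ((W : ℝ) + 1 / 2) / (B : ℝ) ^ k * (B : ℝ) ^ k = W + 1 / 2 := by field_simp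
        rw [sub_mul, sub_mul, d] at a b
        rw [neg_mul, c] at a
        rw [c] at b
        push_cast
        constructor <;> linarith
      rw [this, Int.add_mul_emod_self_left, Int.emod_eq_of_lt h0 h1])
    (fun n hn => by
      rw [dist_eq_norm, ← QuotientAddGroup.mk_sub, UnitAddCircle.norm_eq]
      set F := ⌊y * (B : ℝ) ^ n * (B : ℝ) ^ k⌋ with hF
      refine (round_le _ (F / (B : ℤ) ^ k)).trans ?_
      have e := Int.emod_add_mul_ediv F ((B : ℤ) ^ k)
      rw [hn] at e
      have e' : (W : ℝ) + (B : ℝ) ^ k * (F / (B : ℤ) ^ k : ℤ) = F := by exact_mod_cast e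
      have a := Int.floor_le (y * (B : ℝ) ^ n * (B : ℝ) ^ k)
      have b := Int.lt_floor_add_one (y * (B : ℝ) ^ n * (B : ℝ) ^ k)
      rw [← hF] at a b
      have c : y * (B : ℝ) ^ n - ((W : ℝ) + 1 / 2) / (B : ℝ) ^ k - (F / (B : ℤ) ^ k : ℤ)
          = (y * (B : ℝ) ^ n * (B : ℝ) ^ k - F - 1 / 2) / (B : ℝ) ^ k := by
        rw [← e']; field_simp; ring
      rw [c, abs_div, abs_of_pos hQ0, ← div_div]
      refine div_le_div_of_nonneg_right (abs_le.2 ⟨by linarith, by linarith⟩) hQ0.le)
  rw [show 2 * (1 / (2 * (B : ℝ) ^ k)) = 1 / (B : ℝ) ^ k by field_simp] at this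
  refine this.congr fun N => ?_
  congr 2
  rw [card_filter, card_filter, ← Finset.Ico_add_one_right_eq_Icc, sum_Ico_eq_sum_range]
  refine sum_congr (by simp) fun n _ => ?_
  refine if_congr ?_ rfl rfl
  rw [← h2]
  constructor
  · intro h i
    have := h i.1 i.2
    rw [dif_pos i.2, mul_assoc, ← pow_add] at this
    rw [show 1 + n + i.1 = n + (i.1 + 1) by ring]
    exact this
  · intro h i hi
    have := h ⟨i, hi⟩
    rw [dif_pos hi, mul_assoc, ← pow_add, show n + (i + 1) = 1 + n + i by ring]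
    exact this

end Pool.Agent.P.MP_28bf3c_nt.Q
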