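import Pool.Agent.P.MP_28bf3c_nt.Q.Link
import Pool.Agent.P.MP_28bf3c_nt.Q.Del
import Pool.Agent.P.MP_28bf3c_nt.Q.Weyl

set_option autoImplicit false
open Finset MeasureTheory ProbabilityTheory Filter Topology

namespace Pool.Agent.P.MP_28bf3c_nt.Q

lemma exists_scale {C : ℝ} (hC : 0 < C) {B : ℕ} (hB : 2 ≤ B) :
    ∃ (s : ℕ → ℕ) (n0 K : ℕ), StrictMono (fun n => s (n + n0)) ∧ ∀ n, n0 ≤ n →
      (2 : ℝ) ^ s n ≤ C * B ^ n ∧ C * B ^ n ≤ 2 * 2 ^ s n ∧ 1 ≤ s n ∧ 1 ≤ n ∧ s n ≤ K * n := by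
  have hB' : (2 : ℝ) ≤ B := by exact_mod_cast hB
  obtain ⟨n1, hn1⟩ := eventually_atTop.1
    (((tendsto_pow_atTop_atTop_of_one_lt (by linarith : (1 : ℝ) < B)).const_mul_atTop
      hC).eventually_ge_atTop 2)
  obtain ⟨k, hk⟩ := pow_unbounded_of_one_lt C (one_lt_two (α := ℝ))
  set s : ℕ → ℕ := fun n => Nat.log 2 ⌊C * B ^ n⌋₊ with hs
  have up : ∀ n e, (2 : ℝ) ^ e ≤ C * B ^ n → e ≤ s n := fun n e h =>
    Nat.le_log_of_pow_le one_lt_two (Nat.le_floor (by exact_mod_cast h))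
  have lo : ∀ n, n1 ≤ n → (2 : ℝ) ^ s n ≤ C * B ^ n := fun n hn => by
    have h1 : 2 ≤ ⌊C * B ^ n⌋₊ := Nat.le_floor (by exact_mod_cast hn1 n hn)
    have h2 : 2 ^ s n ≤ ⌊C * B ^ n⌋₊ := Nat.pow_log_le_self 2 (by omega)
    exact le_trans (by exact_mod_cast h2) (Nat.floor_le (by positivity))
  refine ⟨s, n1 + 1, k + B, strictMono_nat_of_lt_succ fun n => ?_, fun n hn =>
    ⟨lo n (by omega), ?_, up n 1 (by simpa using hn1 n (by omega)), by omega, ?_⟩⟩
  · apply up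
    have := lo (n + (n1 + 1)) (by omega)
    rw [show n + 1 + (n1 + 1) = n + (n1 + 1) + 1 by ring, pow_succ, pow_succ (B : ℝ), ← mul_assoc]
    gcongr
  · by_contra h
    have := up n (s n + 1) (by rw [pow_succ]; linarith)
    omega
  · have h1 : (B : ℝ) ≤ 2 ^ B := by exact_mod_cast Nat.lt_two_pow_self.le
    have h2 : (2 : ℝ) ^ s n ≤ 2 ^ (k + B * n) := by
      rw [pow_add, pow_mul]
      exact (lo n (by omega)).trans (by gcongr)
    have h3 := (pow_le_pow_iff_right₀ one_lt_two).1 h2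
    nlinarith

lemma weyl_ae (p : ℕ → unitInterval)
    (hs : Summable fun s : ℕ => Real.exp (-(1 / 2400) * R 2 p s) / s) {a : ℝ} (ha : a ≠ 0)
    (b c : ℝ) {B : ℕ} (hB : 2 ≤ B) {h : ℤ} (hh : h ≠ 0) :
    ∀ᵐ ω ∂mu p, Tendsto (fun N : ℕ => (∑ n ∈ range N,
      ee (2 * Real.pi * h * B ^ n * (a * XX ω ^ 2 + b * XX ω + c))) / N) atTop (𝓝 0) := by
  have hC : 0 < |4 * Real.pi * h * a| := abs_pos.2 (by
    have : (h : ℝ) ≠ 0 := by exact_mod_cast hh
    positivity)
  obtain ⟨s, n0, K, hmono, H⟩ := exists_scale hC hB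
  have hB' : (2 : ℝ) ≤ B := by exact_mod_cast hB
  refine del (f := fun n ω => ee (2 * Real.pi * h * B ^ n * (a * XX ω ^ 2 + b * XX ω + c)))
    (a := fun n => if n0 ≤ n then Real.exp (-(1 / 2400) * R 2 p (s n)) else 1)
    (fun n => continuous_ee.measurable.comp (by have := measurable_XX; fun_prop))
    (fun n ω => (norm_ee _).le) (fun n => by positivity) (fun m n hmn => ?_) ?_
  · split_ifs with hn
    · obtain ⟨h1, h2, -⟩ := H n hn
      set t : ℝ := 2 * Real.pi * h * (B ^ n - B ^ m) with ht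
      have e : ∀ ω, ee (2 * Real.pi * h * B ^ n * (a * XX ω ^ 2 + b * XX ω + c)) *
          (starRingEnd ℂ) (ee (2 * Real.pi * h * B ^ m * (a * XX ω ^ 2 + b * XX ω + c)))
          = ee (t * c) * ee (t * a * XX ω ^ 2 + t * b * XX ω) := fun ω => by
        rw [conj_ee, ← ee_add, ← ee_add, ht]; congr 1; ring
      simp only [e]
      rw [integral_const_mul, norm_mul, norm_ee, one_mul]
      have h3 : 2 * (B : ℝ) ^ m ≤ B ^ n := by
        calc 2 * (B : ℝ) ^ m ≤ B ^ (m + 1) := by rw [pow_succ, mul_comm]; gcongr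
          _ ≤ _ := pow_le_pow_right₀ (by linarith) hmn
      have h4 : (0 : ℝ) < (B : ℝ) ^ m := by positivity
      have h5 : |2 * (t * a) / 2 ^ s n| = |4 * Real.pi * h * a| * (B ^ n - B ^ m) / 2 ^ s n := by
        rw [abs_div, abs_of_pos (by positivity : (0 : ℝ) < 2 ^ s n),
          ← abs_of_nonneg (by linarith : (0 : ℝ) ≤ B ^ n - B ^ m), ← abs_mul, ht]
        congr 2
        ring
      refine decay p _ ?_ ?_
      · rw [h5, le_div_iff₀ (by positivity)]
        nlinarith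
      · rw [h5, div_le_iff₀ (by positivity)]
        nlinarith
    · simpa using norm_integral_le_of_norm_le_const (μ := mu p) (C := 1) (ae_of_all _ fun ω => by
        rw [norm_mul, Complex.norm_conj, norm_ee, norm_ee, one_mul])
  · rw [← summable_nat_add_iff n0]
    refine Summable.of_nonneg_of_le (fun n => by positivity) (fun n => ?_)
      ((hs.comp_injective hmono.injective).mul_left (K : ℝ))
    obtain ⟨-, -, h1, h2, h3⟩ := H (n + n0) (by omega)
    have h1' : (0 : ℝ) < s (n + n0) := by exact_mod_cast h1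
    have h2' : (0 : ℝ) < (n + n0 : ℕ) := by exact_mod_cast h2
    have h3' : (s (n + n0) : ℝ) ≤ K * (n + n0 : ℕ) := by exact_mod_cast h3
    simp only [Function.comp, if_pos (Nat.le_add_left n0 n)]
    rw [← mul_div_assoc, div_le_div_iff₀ h2' h1']
    nlinarith [Real.exp_pos (-(1 / 2400) * R 2 p (s (n + n0)))]

theorem pos (p : ℕ → unitInterval)
    (hs : Summable fun s : ℕ => Real.exp (-(1 / 2400) * R 2 p s) / s) (P : Polynomial ℝ)
    (hP : P.natDegree = 2) : ∀ᵐ ω ∂mu p, ∀ B : ℕ, 2 ≤ B → NormalInBase B (P.eval (XX ω)) := by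
  have ha : P.coeff 2 ≠ 0 := by
    rw [← hP]
    exact Polynomial.leadingCoeff_ne_zero.2 (by rintro rfl; simp at hP)
  have e : ∀ x, P.eval x = P.coeff 2 * x ^ 2 + P.coeff 1 * x + P.coeff 0 := fun x => by
    rw [Polynomial.eval_eq_sum_range, hP]
    simp [sum_range_succ]
    ring
  rw [ae_all_iff]
  intro B
  by_cases hB : 2 ≤ B
  · have : ∀ᵐ ω ∂mu p, ∀ h : ℤ, h ≠ 0 → Tendsto (fun N : ℕ => (∑ n ∈ range N, ee (2 * Real.pi * h *
        B ^ n * (P.coeff 2 * XX ω ^ 2 + P.coeff 1 * XX ω + P.coeff 0))) / N) atTop (𝓝 0) := by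
      rw [ae_all_iff]
      intro h
      by_cases hh : h = 0
      · simp [hh]
      · filter_upwards [weyl_ae p hs ha (P.coeff 1) (P.coeff 0) hB hh] with ω hω _ using hω
    filter_upwards [this] with ω hω _
    rw [e]
    exact normal_of_weyl (by omega) hω
  · simp [hB]

end Pool.Agent.P.MP_28bf3c_nt.Q
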