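import Pool.Agent.P.MP_28bf3c_nt.Q.Pos

set_option autoImplicit false
open Finset MeasureTheory ProbabilityTheory Filter Topology

namespace Pool.Agent.P.MP_28bf3c_nt.Q

noncomputable section

lemma le_R_two (p : ℕ → unitInterval) {s : ℕ} {T : Finset ℕ} (hT : ∀ i ∈ T, 1 ≤ i ∧ 2 * i < s)
    {m : ℝ} (hm : ∀ i ∈ T, m ≤ ((p i : ℝ) * (1 - p i)) * ((p (s - i) : ℝ) * (1 - p (s - i)))) :
    T.card * m ≤ R 2 p s := by
  have h0 : ∀ I : Finset ℕ, 0 ≤ ∏ i ∈ I, ((p i : ℝ) * (1 - (p i : ℝ))) := fun I =>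
    prod_nonneg fun i _ => mul_nonneg (p i).2.1 (sub_nonneg.2 (p i).2.2)
  have hinj : Set.InjOn (fun i => ({i, s - i} : Finset ℕ)) T := by
    intro i hi j hj h
    have a := hT i hi
    have b := hT j hj
    have c : i ∈ ({j, s - j} : Finset ℕ) := by
      simp only at h
      rw [← h]; simp
    simp only [mem_insert, mem_singleton] at c
    omega
  have hsub : T.image (fun i => ({i, s - i} : Finset ℕ))
      ⊆ ((Icc 1 s).powersetCard 2).filter (fun I => ∑ i ∈ I, i = s) := by
    intro I hI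
    obtain ⟨i, hi, rfl⟩ := mem_image.1 hI
    have a := hT i hi
    have b : i ≠ s - i := by omega
    rw [mem_filter, mem_powersetCard, card_pair b, sum_pair b]
    refine ⟨⟨fun j hj => ?_, rfl⟩, by omega⟩
    simp only [mem_insert, mem_singleton, mem_Icc] at hj ⊢
    omega
  refine le_trans ?_ (sum_le_sum_of_subset_of_nonneg hsub fun I _ _ => h0 I)
  rw [sum_image hinj, ← nsmul_eq_mul]
  refine card_nsmul_le_sum _ _ _ fun i hi => ?_
  have a := hT i hi
  rw [prod_pair (by omega)]
  exact hm i hi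

lemma summable_of_loglog (p : ℕ → unitInterval)
    (h : ∀ᶠ s : ℕ in atTop, 4800 * Real.log (Real.log s) ≤ R 2 p s) :
    Summable fun s : ℕ => Real.exp (-(1 / 2400) * R 2 p s) / s := by
  have h1 : Summable fun s : ℕ => 1 / (Real.log s ^ 2 * s) := by
    rw [← summable_condensed_iff_of_eventually_nonneg (Eventually.of_forall fun s => by positivity)]
    · refine ((Real.summable_one_div_nat_pow.2 one_lt_two).mul_left
        (1 / Real.log 2 ^ 2)).congr fun k => ?_
      push_cast
      rw [Real.log_pow, mul_pow]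
      field_simp
    · filter_upwards [eventually_ge_atTop 2] with k hk
      have a : (2 : ℝ) ≤ k := by exact_mod_cast hk
      have b : 0 < Real.log k := Real.log_pos (by linarith)
      push_cast
      gcongr <;> linarith
  refine Summable.of_norm_bounded_eventually_nat h1 ?_
  filter_upwards [h, eventually_ge_atTop 2] with s hs h2
  have a : (2 : ℝ) ≤ s := by exact_mod_cast h2
  have b : 0 < Real.log s := Real.log_pos (by linarith)
  rw [Real.norm_of_nonneg (by positivity), ← div_div]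
  gcongr
  rw [← Real.exp_log (by positivity : 0 < 1 / Real.log s ^ 2), one_div (Real.log s ^ 2),
    Real.log_inv, Real.log_pow]
  apply Real.exp_le_exp.2
  push_cast
  linarith

lemma loglog_of_v (p : ℕ → unitInterval)
    (h : ∀ᶠ n : ℕ in atTop, 400 * √(Real.log (Real.log n) / n) ≤ (p n : ℝ) * (1 - p n)) :
    ∀ᶠ s : ℕ in atTop, 4800 * Real.log (Real.log s) ≤ R 2 p s := by
  obtain ⟨n0, hn0⟩ := eventually_atTop.1 h
  have t1 : Tendsto (fun s : ℕ => Real.log (s : ℝ)) atTop atTop :=
    Real.tendsto_log_atTop.comp tendsto_natCast_atTop_atTop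
  filter_upwards [eventually_ge_atTop (4 * n0 + 64), t1.eventually_ge_atTop 4] with s hs hl
  have hs' : (64 : ℝ) ≤ s := by exact_mod_cast (by omega : 64 ≤ s)
  set l := Real.log (Real.log s) with hl'
  have l4 : Real.log 4 ≤ l := Real.log_le_log (by norm_num) hl
  have l2 : Real.log 4 = 2 * Real.log 2 := by
    rw [show (4 : ℝ) = 2 ^ 2 by norm_num, Real.log_pow]; norm_num
  have l0 : 0 < Real.log 2 := Real.log_pos one_lt_two
  have key : ∀ n : ℕ, s / 4 ≤ n → n ≤ s → 400 * √(l / 2 / s) ≤ (p n : ℝ) * (1 - p n) := by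
    intro n h1 h2
    refine le_trans ?_ (hn0 n (by omega))
    have a : (s : ℝ) ≤ (n : ℝ) ^ 2 := by
      have : s ≤ n ^ 2 := by nlinarith [(by omega : 16 ≤ n), (by omega : s ≤ 4 * n + 3)]
      exact_mod_cast this
    have n0 : (0 : ℝ) < n := by exact_mod_cast (by omega : 0 < n)
    have b : Real.log s ≤ 2 * Real.log n := by
      have := Real.log_le_log (by linarith) a
      rwa [Real.log_pow] at this
    have c : l ≤ Real.log 2 + Real.log (Real.log n) := by
      rw [← Real.log_mul (by norm_num) (by linarith)]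
      exact Real.log_le_log (by linarith) b
    have d : (n : ℝ) ≤ s := by exact_mod_cast h2
    have e : l / 2 ≤ Real.log (Real.log n) := by linarith
    gcongr
    linarith
  have h3 := le_R_two p (s := s) (T := Ico (s / 4) (s / 4 + s / 8)) (m := 80000 * l / s)
    (fun i hi => by rw [mem_Ico] at hi; omega) fun i hi => by
      rw [mem_Ico] at hi
      have a := key i hi.1 (by omega)
      have b := key (s - i) (by omega) (by omega)
      have c : √(l / 2 / s) * √(l / 2 / s) = l / 2 / s :=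
        Real.mul_self_sqrt (by have : 0 ≤ l := by linarith
                               positivity)
      calc 80000 * l / s = 400 * √(l / 2 / s) * (400 * √(l / 2 / s)) := by
            rw [mul_mul_mul_comm, c]; ring
        _ ≤ _ := mul_le_mul a b (by positivity) (le_trans (by positivity) a)
  refine le_trans ?_ h3
  have h4 : (s : ℝ) ≤ 16 * (Ico (s / 4) (s / 4 + s / 8)).card := by
    rw [Nat.card_Ico]
    exact_mod_cast (by omega : s ≤ 16 * (s / 4 + s / 8 - s / 4))
  rw [← mul_div_assoc, le_div_iff₀ (by linarith)]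
  nlinarith

/-- dense blocks and sparse gaps -/
def pp (q : ℕ → ℝ) (hq : ∀ a, 0 ≤ q a ∧ q a ≤ 1 / 2) (n : ℕ) : unitInterval :=
  if n < 3 * 12 ^ Nat.log 12 n then ⟨1 / 2, by norm_num, by norm_num⟩
  else ⟨q (Nat.log 12 n), (hq _).1, (hq _).2.trans (by norm_num)⟩

variable {q : ℕ → ℝ} (hq : ∀ a, 0 ≤ q a ∧ q a ≤ 1 / 2)

lemma pp_dense {a n : ℕ} (h1 : 12 ^ a ≤ n) (h2 : n < 3 * 12 ^ a) : (pp q hq n : ℝ) = 1 / 2 := by
  have : Nat.log 12 n = a := Nat.log_eq_of_pow_le_of_lt_pow h1 (by rw [pow_succ]; omega)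
  rw [pp, if_pos (by rwa [this])]

lemma pp_sparse {a n : ℕ} (h1 : 3 * 12 ^ a ≤ n) (h2 : n < 12 ^ (a + 1)) :
    (pp q hq n : ℝ) = q a := by
  have : Nat.log 12 n = a := Nat.log_eq_of_pow_le_of_lt_pow (by omega) h2
  rw [pp, if_neg (by rw [this]; omega)]
  exact congrArg q this

lemma pp_ge {a n : ℕ} (h1 : 12 ^ a ≤ n) (h2 : n < 12 ^ (a + 2)) {m : ℝ} (m1 : m ≤ q a)
    (m2 : m ≤ q (a + 1)) : m / 2 ≤ (pp q hq n : ℝ) * (1 - pp q hq n) := by
  have b : q (Nat.log 12 n) ≤ pp q hq n ∧ (pp q hq n : ℝ) ≤ 1 / 2 := by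
    unfold pp
    split_ifs
    · exact ⟨(hq _).2, le_rfl⟩
    · exact ⟨le_rfl, (hq _).2⟩
  have c1 : a ≤ Nat.log 12 n := Nat.le_log_of_pow_le (by norm_num) h1
  have c2 : Nat.log 12 n < a + 2 := Nat.log_lt_of_lt_pow' (by omega) h2
  have d : m ≤ q (Nat.log 12 n) := by
    rcases (by omega : Nat.log 12 n = a ∨ Nat.log 12 n = a + 1) with h | h <;> rwa [h]
  nlinarith [(pp q hq n).2.1]

lemma pp_R {a s : ℕ} (h3 : 12 ^ (a + 1) ≤ s) (h4 : s < 12 ^ (a + 2)) {m : ℝ} (m1 : m ≤ q a)
    (m2 : m ≤ q (a + 1)) : 12 ^ a * m / 8 ≤ R 2 (pp q hq) s := by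
  have h5 := Nat.one_le_pow a 12 (by norm_num)
  rw [pow_succ] at h3
  have h6 := le_R_two (pp q hq) (s := s) (T := Ico (12 ^ a) (2 * 12 ^ a)) (m := m / 8)
    (fun i hi => by rw [mem_Ico] at hi; omega) fun i hi => by
      rw [mem_Ico] at hi
      rw [pp_dense hq hi.1 (by omega)]
      have := pp_ge hq (a := a) (n := s - i) (by omega) (by omega) m1 m2
      linarith
  rw [Nat.card_Ico, show 2 * 12 ^ a - 12 ^ a = 12 ^ a by omega] at h6
  push_cast at h6
  linarith

lemma pp_not_normal (hns : ¬ Summable fun a : ℕ => Real.exp (-(2 * q a * 12 ^ (a + 1)))) :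
    ∀ᵐ ω ∂mu (pp q hq), ¬ NormalInBase 2 (XX ω ^ 2) := by
  set G : ℕ → Finset ℕ := fun a => Ico (3 * 12 ^ a) (12 ^ (a + 1)) with hG
  set E : Finset ℕ → Set (ℕ → ℝ) := fun S => Set.pi (S : Set ℕ) fun _ => {0} with hE
  have hm : ∀ S, MeasurableSet (E S) := fun S =>
    MeasurableSet.pi S.countable_toSet fun _ _ => measurableSet_singleton _
  have hμ : ∀ S, mu (pp q hq) (E S) = ∏ n ∈ S, bernoulliMeasure (1 : ℝ) 0 (pp q hq n) {0} :=
    fun S => Measure.infinitePi_pi _ fun _ _ => measurableSet_singleton _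
  have hind : iIndepSet (fun a => E (G a)) (mu (pp q hq)) := by
    rw [iIndepSet_iff_meas_biInter fun a => hm _]
    intro T
    have : ⋂ a ∈ T, E (G a) = E (T.biUnion G) := by
      ext ω
      simp only [hE, Set.mem_iInter, Set.mem_pi, mem_coe, mem_biUnion]
      exact ⟨fun h n ⟨a, ha, hn⟩ => h a ha n hn, fun h a ha n hn => h n ⟨a, ha, hn⟩⟩
    rw [this, hμ, prod_biUnion]
    · simp only [hμ]
    · intro a _ b _ hab
      rw [Function.onFun, disjoint_left]
      intro n h1 h2
      simp only [hG, mem_Ico] at h1 h2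
      exact hab ((Nat.log_eq_of_pow_le_of_lt_pow (by omega) h1.2).symm.trans
        (Nat.log_eq_of_pow_le_of_lt_pow (by omega) h2.2))
  have hlow : ∀ a : ℕ, Real.exp (-(2 * q a * 12 ^ (a + 1))) ≤ (mu (pp q hq) (E (G a))).toReal := by
    intro a
    obtain ⟨q0, q1⟩ := hq a
    rw [hμ, ENNReal.toReal_prod, prod_congr rfl (g := fun _ => 1 - q a), prod_const]
    · have h1 : Real.exp (-(2 * q a)) ≤ 1 - q a := by
        rw [Real.exp_neg, inv_le_comm₀ (Real.exp_pos _) (by linarith)]
        refine le_trans ?_ (Real.add_one_le_exp _)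
        rw [inv_le_iff_one_le_mul₀ (by linarith)]
        nlinarith
      calc _ = Real.exp (-(2 * q a)) ^ 12 ^ (a + 1) := by
            rw [← Real.exp_nat_mul]
            congr 1
            push_cast
            ring
        _ ≤ (1 - q a) ^ 12 ^ (a + 1) := by gcongr
        _ ≤ _ := pow_le_pow_of_le_one (by linarith) (by linarith) (by simp [hG])
    · intro n hn
      rw [mem_Ico] at hn
      rw [← pp_sparse hq hn.1 hn.2]
      exact bernoulliMeasure_real_apply_of_notMem_of_mem _ (measurableSet_singleton _) (by simp)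
        (by simp)
  have hsum : ∑' a, mu (pp q hq) (E (G a)) = ⊤ := by
    by_contra h
    exact hns (Summable.of_nonneg_of_le (fun a => by positivity) hlow (ENNReal.summable_toReal h))
  have h1 := measure_limsup_eq_one (fun a => hm _) hind hsum
  have h2 : ∀ᵐ ω ∂mu (pp q hq), ω ∈ limsup (fun a => E (G a)) atTop :=
    (mem_ae_iff_prob_eq_one (MeasurableSet.measurableSet_limsup fun a => hm _)).2 h1
  filter_upwards [ae_bits (pp q hq), h2] with ω h01 hω
  obtain ⟨φ, hφ, H⟩ := extraction_of_frequently_atTop (mem_limsup_iff_frequently_mem.1 hω)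
  apply not_normal_of_gaps (B := fun m => 2 * 12 ^ φ m)
  · refine tendsto_atTop_mono (fun m => ?_) hφ.tendsto_atTop
    have : φ m < 12 ^ φ m := Nat.lt_pow_self (by norm_num)
    omega
  · filter_upwards [hφ.tendsto_atTop.eventually_ge_atTop 1] with m hm1 n a b
    have : φ m < 12 ^ φ m := Nat.lt_pow_self (by norm_num)
    refine digit_zero h01 (K := 3 * 12 ^ φ m) (M := 12 ^ (φ m + 1) - 1) (fun i c d => ?_) (by omega)
      (by rw [pow_succ]; omega)
    exact H m i (mem_coe.2 (mem_Ico.2 ⟨by omega, by rw [pow_succ] at d ⊢; omega⟩))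

theorem converse {g : ℕ → ℝ} (hmono : Monotone g) (h0 : ∀ s, 0 ≤ g s)
    (hcap : ∀ᶠ s : ℕ in atTop, g s ≤ s / 27648)
    (hns : ¬ Summable fun s : ℕ => Real.exp (-27648 * g s) / s) :
    ∃ p : ℕ → unitInterval, (∀ᶠ s : ℕ in atTop, g s ≤ R 2 p s) ∧
      ∀ᵐ ω ∂mu p, ¬ NormalInBase 2 (XX ω ^ 2) := by
  have hq : ∀ a : ℕ, 0 ≤ min (1 / 2 : ℝ) (96 * g (12 ^ (a + 2)) / 12 ^ a) ∧
      min (1 / 2 : ℝ) (96 * g (12 ^ (a + 2)) / 12 ^ a) ≤ 1 / 2 := fun a =>
    ⟨le_min (by norm_num) (by have := h0 (12 ^ (a + 2)); positivity), min_le_left _ _⟩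
  refine ⟨pp _ hq, ?_, pp_not_normal hq fun hs => hns ?_⟩
  · obtain ⟨s0, hs0⟩ := eventually_atTop.1 hcap
    filter_upwards [eventually_ge_atTop (s0 + 12)] with s hs
    have h2 : 1 ≤ Nat.log 12 s := Nat.le_log_of_pow_le (by norm_num) (by omega)
    obtain ⟨a, ha⟩ : ∃ a, Nat.log 12 s = a + 1 := ⟨Nat.log 12 s - 1, by omega⟩
    have h3 : 12 ^ (a + 1) ≤ s := ha ▸ Nat.pow_log_le_self 12 (by omega)
    have h4 : s < 12 ^ (a + 2) := by
      have := Nat.lt_pow_succ_log_self (b := 12) (by norm_num) s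
      rwa [ha] at this
    have h5 := hs0 (12 ^ (a + 2)) (by omega)
    have h6 : g (12 ^ (a + 2)) ≤ g (12 ^ (a + 1 + 2)) :=
      hmono (Nat.pow_le_pow_right (by norm_num) (by omega))
    have h7 := h0 (12 ^ (a + 2))
    have h8 : (0 : ℝ) < 12 ^ a := by positivity
    have h9 : 8 * g (12 ^ (a + 2)) / 12 ^ a ≤ 1 / 2 := by
      rw [div_le_iff₀ h8]
      push_cast at h5
      rw [pow_add (12 : ℝ)] at h5
      linarith
    refine (hmono h4.le).trans (le_trans (le_of_eq ?_) (pp_R hq h3 h4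
      (m := 8 * g (12 ^ (a + 2)) / 12 ^ a) (le_min h9 (by gcongr; norm_num)) (le_min h9 ?_)))
    · field_simp
    · rw [pow_succ (12 : ℝ) a, div_le_div_iff₀ h8 (by positivity)]
      nlinarith
  · have h1 : Summable fun a : ℕ => Real.exp (-27648 * g (12 ^ a)) := by
      rw [← summable_nat_add_iff 2]
      refine Summable.of_nonneg_of_le (fun a => by positivity) (fun a => Real.exp_le_exp.2 ?_) hs
      have a1 := min_le_right (1 / 2 : ℝ) (96 * g (12 ^ (a + 2)) / 12 ^ a)
      rw [le_div_iff₀ (by positivity)] at a1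
      rw [pow_succ (12 : ℝ) a]
      linarith [h0 (12 ^ (a + 2))]
    rw [← summable_schlomilch_iff_of_nonneg (C := 12) (u := fun k => 12 ^ k)
      (fun s => by positivity) ?_ (fun k => by positivity) (pow_right_strictMono₀ (by norm_num))
      (by norm_num) (fun n => by simp only [pow_succ, smul_eq_mul]; omega)]
    · refine (h1.mul_left 11).congr fun a => ?_
      push_cast
      field_simp
      ring
    · intro m n hm hmn
      have : g m ≤ g n := hmono hmn
      have hm' : (0 : ℝ) < m := by exact_mod_cast hm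
      have hmn' : (m : ℝ) ≤ n := by exact_mod_cast hmn
      exact div_le_div₀ (Real.exp_pos _).le (Real.exp_le_exp.2 (by linarith)) hm' hmn'

theorem converse_loglog : ∃ κ : ℝ, 0 < κ ∧ ∃ p : ℕ → unitInterval,
    (∀ᶠ s : ℕ in atTop, κ * Real.log (Real.log (s : ℝ)) ≤ R 2 p s) ∧
      ∀ᵐ ω ∂mu p, ¬ NormalInBase 2 (XX ω ^ 2) := by
  have h1 : ∀ s : ℕ, 1 ≤ Real.log ((s : ℝ) + 3) := fun s => by
    rw [Real.le_log_iff_exp_le (by positivity)]
    linarith [Real.exp_one_lt_d9, s.cast_nonneg (α := ℝ)]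
  obtain ⟨p, hp, H⟩ := converse (g := fun s => Real.log (Real.log ((s : ℝ) + 3)) / 27648)
    (fun m n h => by
      have := h1 m
      have : (m : ℝ) ≤ n := by exact_mod_cast h
      simp only
      gcongr)
    (fun s => div_nonneg (Real.log_nonneg (h1 s)) (by norm_num))
    (by
      filter_upwards [eventually_ge_atTop 1] with s hs
      have a : (1 : ℝ) ≤ s := by exact_mod_cast hs
      have b := Real.log_le_sub_one_of_pos (by linarith [h1 s] : 0 < Real.log ((s : ℝ) + 3))
      have c := Real.log_le_sub_one_of_pos (by positivity : 0 < ((s : ℝ) + 3) / 2)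
      rw [Real.log_div (by positivity) (by norm_num)] at c
      gcongr
      linarith [Real.log_two_lt_d9])
    (by
      have e : ∀ s : ℕ, Real.exp (-27648 * (Real.log (Real.log ((s : ℝ) + 3)) / 27648))
          = 1 / Real.log ((s : ℝ) + 3) := fun s => by
        rw [show -27648 * (Real.log (Real.log ((s : ℝ) + 3)) / 27648)
          = -Real.log (Real.log ((s : ℝ) + 3)) by ring, Real.exp_neg,
          Real.exp_log (by linarith [h1 s]), one_div]
      simp only [e]
      rw [← summable_condensed_iff_of_nonneg (fun s => by have := h1 s; positivity)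
        fun m n hm h => by
          have := h1 m
          have : (m : ℝ) ≤ n := by exact_mod_cast h
          have : (0 : ℝ) < m := by exact_mod_cast hm
          gcongr]
      intro hs
      refine Real.not_summable_one_div_natCast ((summable_nat_add_iff 2).1
        (Summable.of_nonneg_of_le (fun k => by positivity) (fun k => ?_) hs))
      have a := h1 (2 ^ k)
      have b : (1 : ℝ) ≤ 2 ^ k := one_le_pow₀ one_le_two
      have c := Real.log_le_log (by positivity) (by rw [pow_add]; linarith :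
        (2 : ℝ) ^ k + 3 ≤ 2 ^ (k + 2))
      rw [Real.log_pow] at c
      push_cast at a c ⊢
      rw [mul_div_cancel₀ _ (by positivity)]
      refine one_div_le_one_div_of_le (by linarith) ?_
      nlinarith [Real.log_two_lt_d9, k.cast_nonneg (α := ℝ)])
  refine ⟨1 / 27648, by norm_num, p, ?_, H⟩
  filter_upwards [hp, eventually_ge_atTop 2] with s hs h2
  have a : (2 : ℝ) ≤ s := by exact_mod_cast h2
  have b := Real.log_le_log (Real.log_pos (by linarith)) (Real.log_le_log (by linarith)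
    (by linarith : (s : ℝ) ≤ s + 3))
  linarith

end

end Pool.Agent.P.MP_28bf3c_nt.Q
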